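import Mathlib

set_option autoImplicit false

/-! Linear algebra: the determinant of (skew-symmetric + rank one symmetric) is a square. -/

namespace Pool.Agent.Dom84

open Matrix

theorem det_skew_odd {ι : Type*} [Fintype ι] [DecidableEq ι] (A : Matrix ι ι ℚ)
    (hA : Aᵀ = -A) (hodd : Odd (Fintype.card ι)) : A.det = 0 := by
  have h : A.det = -A.det := by
    conv_lhs => rw [← det_transpose, hA, det_neg, hodd.neg_one_pow]
    ring
  linarith

theorem isSquare_det_skew_fin (n : ℕ) : ∀ (A : Matrix (Fin n) (Fin n) ℚ),
    Aᵀ = -A → IsSquare A.det := by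
  induction n using Nat.strong_induction_on with
  | _ n ih =>
    intro A hA
    match n, ih, A, hA with
    | 0, _, A, _ => exact ⟨1, by simp⟩
    | 1, _, A, hA => exact ⟨0, by rw [det_skew_odd A hA (by simp)]; simp⟩
    | (n+2), ih, A, hA =>
      by_cases h0 : ∀ j, A 0 j = 0
      · exact ⟨0, by rw [det_eq_zero_of_row_eq_zero 0 h0]; simp⟩
      push Not at h0
      obtain ⟨j, hj⟩ := h0
      have hsk : ∀ a b, A a b = - A b a := by
        intro a b
        have := congrFun (congrFun hA b) a
        simpa [Matrix.transpose_apply] using this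
      have hj0 : j ≠ 0 := by
        rintro rfl
        have := hsk 0 0
        exact hj (by linarith)
      -- the permutation swapping 1 and j
      set σ : Equiv.Perm (Fin (n+2)) := Equiv.swap 1 j with hσ
      have hσ0 : σ 0 = 0 := by
        rw [hσ]
        apply Equiv.swap_apply_of_ne_of_ne
        · simp
        · exact hj0.symm
      have hσ1 : σ 1 = j := by rw [hσ]; simp
      set e : Fin 2 ⊕ Fin n ≃ Fin (n+2) := finSumFinEquiv.trans (finCongr (by ring)) with he
      set B : Matrix (Fin 2 ⊕ Fin n) (Fin 2 ⊕ Fin n) ℚ := A.submatrix (e.trans σ) (e.trans σ) with hB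
      have hdet : A.det = B.det := by
        rw [hB, det_submatrix_equiv_self]
      have hBsk : ∀ a b, B a b = - B b a := by
        intro a b
        simp only [hB, submatrix_apply]
        exact hsk _ _
      have hBfrom : B = fromBlocks B.toBlocks₁₁ B.toBlocks₁₂ B.toBlocks₂₁ B.toBlocks₂₂ :=
        (fromBlocks_toBlocks B).symm
      set a : ℚ := A 0 j with ha
      have he0 : e (Sum.inl 0) = 0 := by
        apply Fin.ext
        simp [he, finSumFinEquiv, finCongr]
      have he1 : e (Sum.inl 1) = 1 := by
        apply Fin.ext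
        simp [he, finSumFinEquiv, finCongr]
      have hP : B.toBlocks₁₁ = !![0, a; -a, 0] := by
        ext x y
        fin_cases x <;> fin_cases y
        · have := hBsk (Sum.inl 0) (Sum.inl 0)
          have h2 : B (Sum.inl 0) (Sum.inl 0) = 0 := by linarith
          simpa [toBlocks₁₁] using h2
        · simp [toBlocks₁₁, hB, he0, he1, hσ0, hσ1, ha]
        · simp [toBlocks₁₁, hB, he0, he1, hσ0, hσ1, ha]
          exact hsk _ _
        · have := hBsk (Sum.inl 1) (Sum.inl 1)
          have h2 : B (Sum.inl 1) (Sum.inl 1) = 0 := by linarith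
          simpa [toBlocks₁₁] using h2
      have hdP : B.toBlocks₁₁.det = a * a := by
        rw [hP, det_fin_two_of]; ring
      have hunit : IsUnit B.toBlocks₁₁.det := by
        rw [hdP]; exact (mul_ne_zero hj hj).isUnit
      have : Invertible B.toBlocks₁₁ := invertibleOfIsUnitDet _ hunit
      have hBt : Bᵀ = -B := by
        ext x y; simp only [transpose_apply, Matrix.neg_apply]; rw [hBsk]
      have h11 : B.toBlocks₁₁ᵀ = - B.toBlocks₁₁ := by
        ext x y; simp only [transpose_apply, Matrix.neg_apply, toBlocks₁₁, of_apply]; rw [hBsk]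
      have h12 : B.toBlocks₁₂ᵀ = - B.toBlocks₂₁ := by
        ext x y; simp only [transpose_apply, Matrix.neg_apply, toBlocks₁₂, toBlocks₂₁, of_apply]; rw [hBsk]
      have h21 : B.toBlocks₂₁ᵀ = - B.toBlocks₁₂ := by
        ext x y; simp only [transpose_apply, Matrix.neg_apply, toBlocks₁₂, toBlocks₂₁, of_apply]; rw [hBsk]
      have h22 : B.toBlocks₂₂ᵀ = - B.toBlocks₂₂ := by
        ext x y; simp only [transpose_apply, Matrix.neg_apply, toBlocks₂₂, of_apply]; rw [hBsk]
      have hinv : (⅟B.toBlocks₁₁)ᵀ = - ⅟B.toBlocks₁₁ := by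
        rw [invOf_eq_nonsing_inv, transpose_nonsing_inv, h11]
        rw [Matrix.inv_eq_left_inv]
        rw [neg_mul_neg, nonsing_inv_mul _ hunit]
      have hS : (B.toBlocks₂₂ - B.toBlocks₂₁ * ⅟B.toBlocks₁₁ * B.toBlocks₁₂)ᵀ
          = -(B.toBlocks₂₂ - B.toBlocks₂₁ * ⅟B.toBlocks₁₁ * B.toBlocks₁₂) := by
        rw [transpose_sub, transpose_mul, transpose_mul, h22, h12, h21, hinv]
        simp only [Matrix.neg_mul, Matrix.mul_neg, neg_neg, Matrix.mul_assoc]
        abel
      obtain ⟨r, hr⟩ := ih n (by omega) _ hS
      refine ⟨a * r, ?_⟩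
      rw [hdet, hBfrom, det_fromBlocks₁₁, hr, hdP]
      ring

theorem isSquare_det_skew {ι : Type*} [Fintype ι] [DecidableEq ι] (A : Matrix ι ι ℚ)
    (hA : Aᵀ = -A) : IsSquare A.det := by
  have e := Fintype.equivFin ι
  have h : A.det = (A.submatrix e.symm e.symm).det := by
    rw [det_submatrix_equiv_self]
  rw [h]
  apply isSquare_det_skew_fin
  rw [transpose_submatrix, hA]
  rfl

theorem isSquare_det_skew_add {ι : Type*} [Fintype ι] [DecidableEq ι] (A : Matrix ι ι ℚ)
    (hA : Aᵀ = -A) (a : ι → ℚ) : IsSquare (A + vecMulVec a a).det := by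
  -- bordered matrices
  have key : (A + vecMulVec a a).det = A.det +
      (fromBlocks A (replicateCol Unit a) (-replicateRow Unit a) (0 : Matrix Unit Unit ℚ)).det := by
    have h1 : (fromBlocks A (replicateCol Unit a) (-replicateRow Unit a) (1 : Matrix Unit Unit ℚ)).det
        = (A + vecMulVec a a).det := by
      rw [det_fromBlocks_one₂₂]
      congr 1
      rw [Matrix.mul_neg, sub_neg_eq_add, ← vecMulVec_eq]
    have h2 : (fromBlocks A (replicateCol Unit a) (0 : Matrix Unit ι ℚ) (1 : Matrix Unit Unit ℚ)).det = A.det := by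
      rw [det_fromBlocks_zero₂₁, det_one, mul_one]
    rw [← h1, ← h2]
    -- linearity in the last row
    have h3 : (fromBlocks A (replicateCol Unit a) (-replicateRow Unit a) (1 : Matrix Unit Unit ℚ))
        = updateRow (fromBlocks A (replicateCol Unit a) (-replicateRow Unit a) (0 : Matrix Unit Unit ℚ))
          (Sum.inr ()) ((Sum.elim (0 : ι → ℚ) (fun _ => 1)) + (Sum.elim (fun i => - a i) (fun _ => 0))) := by
      ext x y
      rcases x with x | x <;> rcases y with y | y <;> simp [updateRow_apply]
    have h4 : (fromBlocks A (replicateCol Unit a) (0 : Matrix Unit ι ℚ) (1 : Matrix Unit Unit ℚ))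
        = updateRow (fromBlocks A (replicateCol Unit a) (-replicateRow Unit a) (0 : Matrix Unit Unit ℚ))
          (Sum.inr ()) (Sum.elim (0 : ι → ℚ) (fun _ => 1)) := by
      ext x y
      rcases x with x | x <;> rcases y with y | y <;> simp [updateRow_apply]
    have h5 : (fromBlocks A (replicateCol Unit a) (-replicateRow Unit a) (0 : Matrix Unit Unit ℚ))
        = updateRow (fromBlocks A (replicateCol Unit a) (-replicateRow Unit a) (0 : Matrix Unit Unit ℚ))
          (Sum.inr ()) (Sum.elim (fun i => - a i) (fun _ => 0)) := by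
      ext x y
      rcases x with x | x <;> rcases y with y | y <;> simp [updateRow_apply]
    rw [h3, det_updateRow_add, ← h4, ← h5]
  have hskew : (fromBlocks A (replicateCol Unit a) (-replicateRow Unit a) (0 : Matrix Unit Unit ℚ))ᵀ
      = -(fromBlocks A (replicateCol Unit a) (-replicateRow Unit a) (0 : Matrix Unit Unit ℚ)) := by
    rw [fromBlocks_transpose, fromBlocks_neg, hA]
    congr 1
    ext x y; simp
  rcases Nat.even_or_odd (Fintype.card ι) with he | ho
  · have : (fromBlocks A (replicateCol Unit a) (-replicateRow Unit a) (0 : Matrix Unit Unit ℚ)).det = 0 := by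
      apply det_skew_odd _ hskew
      rw [Fintype.card_sum, Fintype.card_unit]
      exact he.add_one
    rw [key, this, add_zero]
    exact isSquare_det_skew A hA
  · rw [key, det_skew_odd A hA ho, zero_add]
    exact isSquare_det_skew _ hskew

/-- rank one update of a matrix whose row `0` and last column vanish. -/
theorem det_add_rank_one {n : ℕ} (Γ : Matrix (Fin (n+1)) (Fin (n+1)) ℚ) (v u : Fin (n+1) → ℚ)
    (h0 : ∀ j, Γ 0 j = 0) (hl : ∀ i, Γ i (Fin.last n) = 0) :
    (Γ + vecMulVec v u).det = (-1)^n * (v 0 * u (Fin.last n)) *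
      (Γ.submatrix Fin.succ Fin.castSucc).det := by
  by_cases hv : v 0 = 0
  · rw [hv]
    rw [det_eq_zero_of_row_eq_zero 0]
    · ring
    · intro j; simp [vecMulVec_apply, h0, hv]
  · set B : Matrix (Fin (n+1)) (Fin (n+1)) ℚ := updateRow Γ 0 (fun j => v 0 * u j) with hB
    have h1 : (Γ + vecMulVec v u).det = B.det := by
      apply det_eq_of_forall_row_eq_smul_add_const (c := fun i => if i = 0 then 0 else v i / v 0) (k := 0)
      · simp
      · intro i j
        by_cases hi : i = 0
        · subst hi
          simp [hB, h0, vecMulVec_apply]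
        · rw [hB]
          simp only [Matrix.add_apply, vecMulVec_apply, updateRow_apply, hi, if_false, if_true]
          field_simp
    rw [h1, det_succ_column B (Fin.last n)]
    rw [Finset.sum_eq_single 0]
    · simp only [hB, updateRow_self, Fin.val_zero, zero_add, Fin.val_last]
      congr 2
      ext i j
      simp [updateRow_apply]
    · intro i _ hi
      rw [hB, updateRow_ne hi, hl]; ring
    · simp

end Pool.Agent.Dom84
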