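import Mathlib
import Pool.Agent.Dom84.LinAlg

set_option autoImplicit false

/-! The two families of polynomials and the determinants built from them. -/

namespace Pool.Agent.Dom84

open Matrix Polynomial

/-- `p u 0 = 0`, `p u 1 = 1`, `p u (r+2) = u (X p u (r+1) + p u r)`. -/
noncomputable def p (u : ℤ) : ℕ → ℤ[X]
  | 0 => 0
  | 1 => 1
  | (r+2) => C u * (X * p u (r+1) + p u r)

@[simp] theorem p_zero (u : ℤ) : p u 0 = 0 := rfl
@[simp] theorem p_one (u : ℤ) : p u 1 = 1 := rfl
theorem p_add_two (u : ℤ) (r : ℕ) : p u (r+2) = C u * (X * p u (r+1) + p u r) := rfl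

theorem p_natDegree (u : ℤ) (r : ℕ) : (p u r).natDegree ≤ r - 1 := by
  induction r using Nat.strong_induction_on with
  | _ r ih =>
    match r, ih with
    | 0, _ => simp
    | 1, _ => simp
    | (r+2), ih =>
      rw [p_add_two]
      refine (natDegree_C_mul_le _ _).trans ?_
      refine (natDegree_add_le _ _).trans (max_le ?_ ?_)
      · refine (natDegree_mul_le).trans ?_
        have := ih (r+1) (by omega)
        rw [natDegree_X]; omega
      · have := ih r (by omega)
        omega

theorem p_coeff_top (u : ℤ) (r : ℕ) : (p u (r+1)).coeff r = u ^ r := by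
  induction r with
  | zero => simp
  | succ r ih =>
    rw [p_add_two, coeff_C_mul, coeff_add, coeff_X_mul, ih]
    rw [coeff_eq_zero_of_natDegree_lt (lt_of_le_of_lt (p_natDegree u r) (by omega))]
    ring

theorem p_coeff_gt (u : ℤ) (r k : ℕ) (h : r - 1 < k) : (p u r).coeff k = 0 :=
  coeff_eq_zero_of_natDegree_lt (lt_of_le_of_lt (p_natDegree u r) h)

theorem p_coeff_zero (u : ℤ) (r : ℕ) :
    (p u (2*r)).coeff 0 = 0 ∧ (p u (2*r+1)).coeff 0 = u ^ r := by
  induction r with
  | zero => simp
  | succ r ih =>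
    have h1 : 2*(r+1) = 2*r+2 := by ring
    have h2 : 2*(r+1)+1 = (2*r+1)+2 := by ring
    constructor
    · rw [h1, p_add_two, coeff_C_mul, coeff_add, coeff_X_mul_zero, ih.1]; ring
    · rw [h2, p_add_two, coeff_C_mul, coeff_add, coeff_X_mul_zero, ih.2]; ring

/-- product -/
noncomputable def f (u : ℤ) (r c : ℕ) : ℤ[X] := p u r * p (-u) c

theorem f_natDegree (u : ℤ) (r c : ℕ) : (f u r c).natDegree ≤ (r - 1) + (c - 1) :=
  natDegree_mul_le.trans (add_le_add (p_natDegree _ _) (p_natDegree _ _))

theorem f_coeff_gt (u : ℤ) (r c k : ℕ) (h : (r - 1) + (c-1) < k) : (f u r c).coeff k = 0 :=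
  coeff_eq_zero_of_natDegree_lt (lt_of_le_of_lt (f_natDegree u r c) h)

theorem f_coeff_top (u : ℤ) (r c : ℕ) : (f u (r+1) (c+1)).coeff (r+c) = u ^ r * (-u) ^ c := by
  rw [f, coeff_mul_add_eq_of_natDegree_le (by simpa using p_natDegree u (r+1)) (by simpa using p_natDegree (-u) (c+1))]
  rw [p_coeff_top, p_coeff_top]

@[simp] theorem f_zero_left (u : ℤ) (c : ℕ) : f u 0 c = 0 := by simp [f]
@[simp] theorem f_zero_right (u : ℤ) (r : ℕ) : f u r 0 = 0 := by simp [f]

theorem f_rel1 (u : ℤ) (r c : ℕ) :
    f u (r+1) (c+2) + f u (r+2) (c+1) = -C u * (f u (r+1) c - f u r (c+1)) := by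
  simp only [f, p_add_two, C_neg]
  ring

theorem f_rel2 (u : ℤ) (r c : ℕ) :
    f u (r+1) (c+2) - f u (r+2) (c+1)
      = -C u * (2 * (X * f u (r+1) (c+1)) + f u (r+1) c + f u r (c+1)) := by
  simp only [f, p_add_two, C_neg]
  ring

/-- unimodularity -/
theorem det_f_unit (u : ℤ) (hu : u * u = 1) (e : ℕ) (he : e < 2) (k : ℕ) :
    IsUnit (Matrix.of (fun i j : Fin k =>
      (f u (i+1) (2*k+e-1-i)).coeff (2*j+e))).det := by
  have huu : IsUnit u := IsUnit.of_mul_eq_one _ hu
  induction k with
  | zero => simp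
  | succ k ih =>
    rcases Nat.eq_zero_or_pos k with hk | hk
    · subst hk
      rw [det_fin_one]
      simp only [of_apply, Fin.val_zero]
      have := f_coeff_top u 0 e
      have h1 : 2 * (0+1) + e - 1 - 0 = e + 1 := by omega
      rw [h1]
      have h2 : 2 * 0 + e = 0 + e := by omega
      rw [h2, this]
      rw [pow_zero]
      exact (isUnit_one.mul ((huu.neg).pow e))
    · obtain ⟨k, rfl⟩ : ∃ k', k = k' + 1 := ⟨k - 1, by omega⟩
      set A : Matrix (Fin (k+1+1)) (Fin (k+1+1)) ℤ := Matrix.of (fun i j : Fin (k+1+1) =>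
        (f u (i+1) (2*(k+1+1)+e-1-i)).coeff (2*j+e)) with hA
      -- B: rows added with predecessors
      set B : Matrix (Fin (k+1+1)) (Fin (k+1+1)) ℤ := Matrix.of (fun i j =>
        Fin.cases (A 0 j) (fun i' => A i'.succ j + A i'.castSucc j) i) with hB
      have hAB : A.det = B.det := by
        apply det_eq_of_forall_row_eq_smul_add_pred (c := fun _ => -1)
        · intro j; simp [hB]
        · intro i j; simp [hB]
      rw [hAB, det_succ_column B (Fin.last _)]
      have hBsucc : ∀ (i : Fin (k+1)) (j : Fin (k+1+1)), B i.succ j =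
          -u * ((f u (i+1) (2*(k+1)+e-1-i)).coeff (2*j+e)
            - (f u i (2*(k+1)+e-i)).coeff (2*j+e)) := by
        intro i j
        have hi := i.2
        simp only [hB, hA, of_apply, Fin.cases_succ, Fin.val_succ, Fin.val_castSucc]
        have := f_rel1 u i (2*(k+1)+e-1-i)
        have h1 : 2 * (k + 1 + 1) + e - 1 - (↑i + 1) = (2*(k+1)+e-1-i) + 1 := by omega
        have h2 : 2 * (k + 1 + 1) + e - 1 - ↑i = (2*(k+1)+e-1-i) + 2 := by omega
        have h3 : 2 * (k+1) + e - i = (2*(k+1)+e-1-i) + 1 := by omega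
        rw [h1, h2, h3]
        have h4 := congrArg (fun q => q.coeff (2*(j:ℕ)+e)) this
        simp only [coeff_add, neg_mul, coeff_neg, coeff_C_mul, coeff_sub] at h4
        have h5 : (i:ℕ) + 1 + 1 = i + 2 := by ring
        rw [h5]
        linarith
      rw [Finset.sum_eq_single 0]
      · have h0 : B 0 (Fin.last _) = (-u)^(2*k+2+e) := by
          simp only [hB, hA, of_apply, Fin.cases_zero, Fin.val_zero, Fin.val_last]
          have h1 : 2 * (k+1+1) + e - 1 - 0 = (2*k+2+e) + 1 := by omega
          have h2 : 2 * (k+1) + e = 0 + (2*k+2+e) := by omega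
          rw [h1, h2, f_coeff_top]; simp
        rw [h0]
        have hsub : (B.submatrix (Fin.succAbove 0) (Fin.last (k+1)).succAbove).det
            = (-u)^(k+1) * (Matrix.of (fun i j : Fin (k+1) =>
              (f u (i+1) (2*(k+1)+e-1-i)).coeff (2*j+e))).det := by
          set A' : Matrix (Fin (k+1)) (Fin (k+1)) ℤ := (Matrix.of (fun i j : Fin (k+1) =>
              (f u (i+1) (2*(k+1)+e-1-i)).coeff (2*j+e))) with hA'
          set B' : Matrix (Fin (k+1)) (Fin (k+1)) ℤ := Matrix.of (fun i j =>
            Fin.cases (A' 0 j) (fun i' => A' i'.succ j - A' i'.castSucc j) i) with hB'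
          have hAB' : A'.det = B'.det := by
            apply det_eq_of_forall_row_eq_smul_add_pred (c := fun _ => 1)
            · intro j; simp [hB']
            · intro i j; simp [hB']
          rw [hAB']
          have hh : (-u)^(k+1) * B'.det = ((-u) • B').det := by
            rw [det_smul, Fintype.card_fin]
          rw [hh]
          congr 1
          ext i j
          simp only [submatrix_apply, Matrix.smul_apply, smul_eq_mul]
          have hi : Fin.succAbove 0 i = i.succ := rfl
          have hj : ((Fin.last (k+1)).succAbove j : Fin (k+1+1)) = j.castSucc := Fin.succAbove_last_apply j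
          rw [hi, hj, hBsucc]
          congr 1
          simp only [Fin.val_castSucc]
          refine Fin.cases ?_ (fun i' => ?_) i
          · simp [hB', hA']
          · simp only [hB', hA', of_apply, Fin.cases_succ, Fin.val_succ, Fin.val_castSucc]
            have hi' := i'.2
            have h3 : 2 * (k + 1) + e - (↑i' + 1) = 2 * (k+1) + e - 1 - i' := by omega
            rw [h3]
        rw [hsub]
        have e1 : IsUnit ((-1 : ℤ)^(((0 : Fin (k+1+1)) : ℕ) + ((Fin.last (k+1) : Fin (k+1+1)) : ℕ))) :=
          (isUnit_one.neg).pow _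
        exact (e1.mul (huu.neg.pow _)).mul ((huu.neg.pow _).mul ih)
      · intro i _ hi
        obtain ⟨i', rfl⟩ := Fin.exists_succ_eq.2 hi
        rw [hBsucc]
        have hi' := i'.2
        have h1 : (f u (i'+1) (2*(k+1)+e-1-i')).coeff (2*((Fin.last (k+1) : Fin (k+1+1)) : ℕ)+e) = 0 := by
          apply f_coeff_gt
          simp only [Fin.val_last]; omega
        have h2 : (f u i' (2*(k+1)+e-i')).coeff (2*((Fin.last (k+1) : Fin (k+1+1)) : ℕ)+e) = 0 := by
          rcases Nat.eq_zero_or_pos (i' : ℕ) with h | h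
          · rw [h]; simp
          · apply f_coeff_gt
            simp only [Fin.val_last]; omega
        rw [h1, h2]; ring
      · simp

end Pool.Agent.Dom84
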