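import Mathlib
import Pool.Agent.Dom84.LinAlg
import Pool.Agent.Dom84.Poly

set_option autoImplicit false

/-! The `2n × 2n` determinant and its arithmetic. -/

namespace Pool.Agent.Dom84

open Matrix Polynomial

section elim
variable {W D R : Type*} [Fintype W] [Fintype D] [DecidableEq W] [DecidableEq D] [CommRing R]

theorem det_elim (K : Matrix (W ⊕ D) (W ⊕ D) R) (Φ : Matrix (W ⊕ D) D R)
    (h : ∀ w j, (K * Φ) (Sum.inl w) j = 0) :
    K.det * (Φ.submatrix Sum.inr id).det
      = K.toBlocks₁₁.det * ((K * Φ).submatrix Sum.inr id).det := by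
  have h1 : K * fromBlocks 1 (Φ.submatrix Sum.inl id) 0 (Φ.submatrix Sum.inr id)
      = fromBlocks K.toBlocks₁₁ 0 K.toBlocks₂₁ ((K * Φ).submatrix Sum.inr id) := by
    conv_lhs => rw [← fromBlocks_toBlocks K, fromBlocks_multiply]
    congr 1
    · simp
    · ext w j
      have := h w j
      rw [mul_apply, Fintype.sum_sum_type] at this
      simpa [Matrix.add_apply, mul_apply, toBlocks₁₁, toBlocks₁₂] using this
    · simp
    · ext w j
      simp [Matrix.add_apply, mul_apply, toBlocks₂₁, toBlocks₂₂, Fintype.sum_sum_type]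
  have h2 := congrArg det h1
  rw [det_mul, det_fromBlocks_zero₂₁, det_fromBlocks_zero₁₂, det_one, one_mul] at h2
  exact h2
end elim

/-- `ψ_a` -/
noncomputable def psi (n a : ℕ) : ℤ[X] := f 1 (a+1) (2*n-1-a) - f 1 a (2*n-a)

/-- `g_a` -/
noncomputable def g (n a : ℕ) : ℤ[X] := f 1 (a+1) (2*n-a)

/-- positions along the diagonal -/
def pos (n : ℕ) : Fin n ⊕ Fin n → ℕ := Sum.elim (fun i => (i:ℕ)) (fun i => 2*n-1-(i:ℕ))

theorem sum_pos {R : Type*} [AddCommMonoid R] (n : ℕ) (F : ℕ → R) :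
    ∑ r, F (pos n r) = ∑ a ∈ Finset.range (2*n), F a := by
  rw [Fintype.sum_sum_type]
  simp only [pos, Sum.elim_inl, Sum.elim_inr]
  rw [two_mul, Finset.sum_range_add, Fin.sum_univ_eq_sum_range (fun i => F i)]
  congr 1
  rw [Fin.sum_univ_eq_sum_range (fun i => F (n + n - 1 - i))]
  rw [← Finset.sum_range_reflect]
  apply Finset.sum_congr rfl
  intro x hx
  rw [Finset.mem_range] at hx
  congr 1
  omega

/-- The matrix `[Ψ | D π_m Ψ]`. -/
noncomputable def MM (n m : ℕ) : Matrix (Fin n ⊕ Fin n) (Fin n ⊕ Fin n) ℤ :=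
  Matrix.of fun r c => Sum.elim (fun j : Fin n => (psi n (pos n r)).coeff (2*(j:ℕ)))
    (fun j : Fin n => (if m ≤ pos n r then (-1)^(pos n r) * (psi n (pos n r)).coeff (2*(j:ℕ)) else 0)) c

noncomputable def BB (n m : ℕ) : Matrix (Fin n) (Fin n) ℤ :=
  Matrix.of fun l j => ∑ a ∈ Finset.Ico m (2*n), (g n a).coeff (2*(l:ℕ)+1) * (psi n a).coeff (2*(j:ℕ))

theorem ortho (u : ℤ) (N : ℕ) : ∀ i j : ℕ, ∑ a ∈ Finset.range N,
    (-1 : ℤ)^a * (f u (a+1) (N-1-a) - f u a (N-a)).coeff i * (f u (a+1) (N-a)).coeff j = 0 := by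
  induction N with
  | zero => simp
  | succ N ih =>
    intro i j
    have h1 : ∑ a ∈ Finset.range (N+1),
      (-1 : ℤ)^a * (f u (a+1) (N+1-1-a) - f u a (N+1-a)).coeff i * (f u (a+1) (N+1-a)).coeff j
      = ∑ a ∈ Finset.range N, (-1 : ℤ)^a * (f u (a+1) (N-a)).coeff i *
          (f u (a+1) (N+1-a) + f u (a+2) (N-a)).coeff j := by
      have e1 : ∑ a ∈ Finset.range (N+1), (-1 : ℤ)^a * (f u (a+1) (N-a)).coeff i * (f u (a+1) (N+1-a)).coeff j
        = ∑ a ∈ Finset.range N, (-1 : ℤ)^a * (f u (a+1) (N-a)).coeff i * (f u (a+1) (N+1-a)).coeff j := by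
        rw [Finset.sum_range_succ]; simp
      have e2 : ∑ a ∈ Finset.range (N+1), (-1 : ℤ)^a * (f u a (N+1-a)).coeff i * (f u (a+1) (N+1-a)).coeff j
        = - ∑ a ∈ Finset.range N, (-1 : ℤ)^a * (f u (a+1) (N-a)).coeff i * (f u (a+2) (N-a)).coeff j := by
        rw [Finset.sum_range_succ', ← Finset.sum_neg_distrib]
        simp only [f_zero_left, coeff_zero, mul_zero, zero_mul, add_zero]
        apply Finset.sum_congr rfl
        intro a _
        have : N + 1 - (a+1) = N - a := by omega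
        rw [this, pow_succ]; ring
      have e3 : ∀ a, (-1 : ℤ)^a * (f u (a+1) (N+1-1-a) - f u a (N+1-a)).coeff i * (f u (a+1) (N+1-a)).coeff j
         = (-1 : ℤ)^a * (f u (a+1) (N-a)).coeff i * (f u (a+1) (N+1-a)).coeff j
          - (-1 : ℤ)^a * (f u a (N+1-a)).coeff i * (f u (a+1) (N+1-a)).coeff j := by
        intro a; rw [coeff_sub]; simp only [Nat.add_sub_cancel]; ring
      simp_rw [e3]
      rw [Finset.sum_sub_distrib, e1, e2, sub_neg_eq_add, ← Finset.sum_add_distrib]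
      apply Finset.sum_congr rfl
      intro a _
      rw [coeff_add]; ring
    rw [h1]
    have h2 : ∑ a ∈ Finset.range N, (-1 : ℤ)^a * (f u (a+1) (N-a)).coeff i *
          (f u (a+1) (N+1-a) + f u (a+2) (N-a)).coeff j
        = - u * ∑ a ∈ Finset.range N,
          (-1 : ℤ)^a * (f u (a+1) (N-1-a) - f u a (N-a)).coeff j * (f u (a+1) (N-a)).coeff i := by
      rw [Finset.mul_sum]
      apply Finset.sum_congr rfl
      intro a ha
      rw [Finset.mem_range] at ha
      have h3 : N - a = (N-1-a) + 1 := by omega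
      have h4 : N + 1 - a = (N-1-a) + 2 := by omega
      have h5 := f_rel1 u a (N-1-a)
      rw [h4, h3, h5]
      rw [neg_mul, coeff_neg, coeff_C_mul]
      ring
    rw [h2, ih j i, mul_zero]

theorem MM_block_unit (n : ℕ) : IsUnit (Matrix.of (fun i j : Fin n => (psi n i).coeff (2*(j:ℕ)))).det := by
  have h := det_f_unit 1 (by ring) 0 (by omega) n
  rcases Nat.eq_zero_or_pos n with hn | hn
  · subst hn; simp
  obtain ⟨k, rfl⟩ : ∃ k, n = k + 1 := ⟨n-1, by omega⟩
  have h1 : (Matrix.of (fun i j : Fin (k+1) => (f 1 (i+1) (2*(k+1)+0-1-i)).coeff (2*(j:ℕ)+0))).det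
     = (Matrix.of (fun i j : Fin (k+1) => (psi (k+1) i).coeff (2*(j:ℕ)))).det := by
    apply det_eq_of_forall_row_eq_smul_add_pred (c := fun _ => 1)
    · intro j
      simp [psi]
    · intro i j
      simp only [of_apply, psi, Fin.val_succ, Fin.val_castSucc, coeff_sub, add_zero]
      have h3 : 2 * (k+1) - (↑i + 1) = 2 * (k+1) - 1 - ↑i := by omega
      rw [h3]; ring
  rw [← h1]; exact h

theorem abs_det_MM (n m : ℕ) : |(MM n m).det| = |(BB n m).det| := by
  set Φ : Matrix (Fin n ⊕ Fin n) (Fin n) ℤ := Matrix.of fun r l => (-1)^(pos n r) * (g n (pos n r)).coeff (2*(l:ℕ)+1) with hΦ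
  have h := det_elim (MM n m)ᵀ Φ (by
    intro j l
    rw [mul_apply]
    simp only [transpose_apply, MM, hΦ, of_apply, Sum.elim_inl]
    rw [sum_pos n (fun a => (psi n a).coeff (2*(j:ℕ)) * ((-1)^a * (g n a).coeff (2*(l:ℕ)+1)))]
    have := ortho 1 (2*n) (2*(j:ℕ)) (2*(l:ℕ)+1)
    rw [← this]
    apply Finset.sum_congr rfl
    intro a _
    simp only [psi, g]
    ring)
  have h1 : ((MM n m)ᵀ * Φ).submatrix Sum.inr id = (BB n m)ᵀ := by
    ext j l
    simp only [submatrix_apply, id, transpose_apply, BB, of_apply]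
    rw [mul_apply]
    simp only [transpose_apply, MM, hΦ, of_apply, Sum.elim_inr]
    rw [sum_pos n (fun a => (if m ≤ a then (-1)^a * (psi n a).coeff (2*(j:ℕ)) else 0) * ((-1)^a * (g n a).coeff (2*(l:ℕ)+1)))]
    rw [Finset.range_eq_Ico, ← Finset.sum_filter_add_sum_filter_not (Finset.Ico 0 (2*n)) (fun a => m ≤ a)]
    have e1 : ∑ a ∈ Finset.Ico 0 (2*n) with ¬ m ≤ a, (if m ≤ a then (-1)^a * (psi n a).coeff (2*(j:ℕ)) else 0) * ((-1)^a * (g n a).coeff (2*(l:ℕ)+1)) = 0 := by
      apply Finset.sum_eq_zero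
      intro a ha
      rw [Finset.mem_filter] at ha
      rw [if_neg ha.2, zero_mul]
    rw [e1, add_zero]
    have e2 : (Finset.Ico 0 (2*n)).filter (fun a => m ≤ a) = Finset.Ico m (2*n) := by
      ext a; simp; omega
    rw [e2]
    apply Finset.sum_congr rfl
    intro a ha
    rw [Finset.mem_Ico] at ha
    rw [if_pos ha.1]
    have : ((-1:ℤ)^a) * (-1)^a = 1 := by rw [← mul_pow]; simp
    linear_combination ((psi n a).coeff (2*(j:ℕ)) * (g n a).coeff (2*(l:ℕ)+1)) * this
  rw [h1, det_transpose, det_transpose] at h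
  have h2 : IsUnit ((MM n m)ᵀ.toBlocks₁₁).det := by
    have : ((MM n m)ᵀ.toBlocks₁₁) = (Matrix.of (fun i j : Fin n => (psi n i).coeff (2*(j:ℕ))))ᵀ := by
      ext i j
      simp [toBlocks₁₁, MM, pos]
    rw [this, det_transpose]
    exact MM_block_unit n
  have h3 : IsUnit (Φ.submatrix Sum.inr id).det := by
    have hh := det_f_unit (-1) (by ring) 1 (by omega) n
    have e : Φ.submatrix Sum.inr id = Matrix.diagonal (fun i : Fin n => (-1:ℤ)^(2*n-1-(i:ℕ))) *
        Matrix.of (fun i j : Fin n => (f (-1) (i+1) (2*n+1-1-i)).coeff (2*(j:ℕ)+1)) := by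
      ext i l
      rw [diagonal_mul]
      simp only [submatrix_apply, hΦ, of_apply, pos, Sum.elim_inr, id, g]
      have hi := i.2
      have h4 : 2 * n - 1 - ↑i + 1 = 2 * n + 1 - 1 - i := by omega
      have h5 : 2 * n - (2*n - 1 - ↑i) = i + 1 := by omega
      rw [h4, h5]
      congr 2
      simp only [f, neg_neg]
      ring
    rw [e, det_mul, det_diagonal]
    refine IsUnit.mul ?_ hh
    apply IsUnit.prod_univ_iff.2
    intro i
    exact (isUnit_one.neg).pow _
  have h4 := congrArg abs h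
  rw [abs_mul, abs_mul, Int.isUnit_iff_abs_eq.1 h2, Int.isUnit_iff_abs_eq.1 h3] at h4
  simpa using h4

end Pool.Agent.Dom84
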