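import Mathlib
import Pool.Agent.Dom84.Alg

set_option autoImplicit false

/-! The square class and the 2-adic valuation of `det (MM n m)`. -/

namespace Pool.Agent.Dom84

open Matrix Polynomial

/-- coefficient vectors -/
noncomputable def Fv (n r : ℕ) : Fin (n+1) → ℚ := fun i => ((f 1 r (2*n+2-r)).coeff (2*(i:ℕ)) : ℤ)
noncomputable def Hv (n r : ℕ) : Fin (n+1) → ℚ := fun i => ((f 1 r (2*n-r)).coeff (2*(i:ℕ)) : ℤ)

noncomputable def GG (n m : ℕ) : Matrix (Fin (n+1)) (Fin (n+1)) ℚ :=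
  Matrix.of fun i j => ∑ a ∈ Finset.Ico m (2*n), 2 * (((X * g n a).coeff (2*(i:ℕ)) : ℤ) : ℚ) * (((psi n a).coeff (2*(j:ℕ)) : ℤ) : ℚ)

noncomputable def KK (n m : ℕ) : Matrix (Fin (n+1)) (Fin (n+1)) ℚ :=
  Matrix.of fun i j => ∑ a ∈ Finset.Ico m (2*n),
    ((Fv n (a+1) i * Fv n (a+2) j - Fv n (a+2) i * Fv n (a+1) j)
      + (Hv n (a+1) i * Hv n a j - Hv n a i * Hv n (a+1) j))

theorem KK_skew (n m : ℕ) : (KK n m)ᵀ = - KK n m := by
  ext i j
  simp only [transpose_apply, Matrix.neg_apply, KK, of_apply]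
  rw [← Finset.sum_neg_distrib]
  apply Finset.sum_congr rfl
  intro a _
  ring

theorem Hv_top (n : ℕ) : Hv n (2*n) = 0 := by
  ext i; simp [Hv]

theorem GG_eq (n m : ℕ) (hm : m ≤ 2*n) :
    GG n m = KK n m + vecMulVec (Fv n (m+1)) (Fv n (m+1)) + vecMulVec (Hv n m) (Hv n m)
      - vecMulVec (Fv n (2*n+1)) (Fv n (2*n+1)) := by
  ext i j
  simp only [Matrix.add_apply, Matrix.sub_apply, vecMulVec_apply, GG, KK, of_apply]
  have key : ∀ a ∈ Finset.Ico m (2*n), 2 * (((X * g n a).coeff (2*(i:ℕ)) : ℤ) : ℚ) * (((psi n a).coeff (2*(j:ℕ)) : ℤ) : ℚ)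
     = ((Fv n (a+1) i * Fv n (a+2) j - Fv n (a+2) i * Fv n (a+1) j)
      + (Hv n (a+1) i * Hv n a j - Hv n a i * Hv n (a+1) j))
      - ((Fv n (a+1+1) i * Fv n (a+1+1) j + Hv n (a+1) i * Hv n (a+1) j)
         - (Fv n (a+1) i * Fv n (a+1) j + Hv n a i * Hv n a j)) := by
    intro a ha
    rw [Finset.mem_Ico] at ha
    have h1 := f_rel1 1 a (2*n-1-a)
    have h2 := f_rel2 1 a (2*n-1-a)
    have e1 : 2*n-1-a+2 = 2*n+2-(a+1) := by omega
    have e2 : 2*n-1-a+1 = 2*n+2-(a+2) := by omega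
    have e3 : 2*n-1-a = 2*n-(a+1) := by omega
    have e4 : 2*n+2-(a+2) = 2*n - a := by omega
    rw [e1, e2] at h1 h2
    rw [e3] at h1 h2
    have h1' : ∀ k, (f 1 (a+1) (2*n+2-(a+1))).coeff k + (f 1 (a+2) (2*n+2-(a+2))).coeff k
      = - ((f 1 (a+1) (2*n-(a+1))).coeff k - (f 1 a (2*n-a)).coeff k) := by
      intro k
      have := congrArg (fun q => q.coeff k) h1
      rw [e4] at this
      simpa [coeff_add, coeff_sub, coeff_neg, e4] using this
    have h2' : ∀ k, (f 1 (a+1) (2*n+2-(a+1))).coeff k - (f 1 (a+2) (2*n+2-(a+2))).coeff k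
      = - (2 * (X * g n a).coeff k + (f 1 (a+1) (2*n-(a+1))).coeff k + (f 1 a (2*n-a)).coeff k) := by
      intro k
      have := congrArg (fun q => q.coeff k) h2
      rw [e4] at this
      have e5 : (2 : ℤ[X]) = C 2 := rfl
      simp only [coeff_add, coeff_sub, neg_mul, coeff_neg, C_1, one_mul, e5, coeff_C_mul] at this
      rw [g, ← this, e4]
    have h3' : ∀ k, (psi n a).coeff k = (f 1 (a+1) (2*n-(a+1))).coeff k - (f 1 a (2*n-a)).coeff k := by
      intro k
      rw [psi, coeff_sub, e3]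
    have A1 := h1' (2*(j:ℕ))
    have A2 := h2' (2*(i:ℕ))
    have A3 := h3' (2*(j:ℕ))
    have B1 : (Fv n (a+1) j + Fv n (a+2) j : ℚ) = -(Hv n (a+1) j - Hv n a j) := by
      simp only [Fv, Hv]; exact_mod_cast A1
    have B2 : (Fv n (a+1) i - Fv n (a+2) i : ℚ) = -(2 * (((X * g n a).coeff (2*(i:ℕ)) : ℤ) : ℚ) + Hv n (a+1) i + Hv n a i) := by
      simp only [Fv, Hv]; exact_mod_cast A2
    have B3 : (((psi n a).coeff (2*(j:ℕ)) : ℤ) : ℚ) = Hv n (a+1) j - Hv n a j := by
      simp only [Hv]; exact_mod_cast A3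
    have e6 : a + 1 + 1 = a + 2 := rfl
    rw [e6, B3]
    have B2' : 2 * (((X * g n a).coeff (2*(i:ℕ)) : ℤ) : ℚ) = -(Fv n (a+1) i - Fv n (a+2) i) - Hv n (a+1) i - Hv n a i := by
      linarith
    rw [B2']
    linear_combination (-(Fv n (a+1) i - Fv n (a+2) i)) * B1
  rw [Finset.sum_congr rfl key, Finset.sum_sub_distrib]
  rw [Finset.sum_Ico_sub (fun a => Fv n (a+1) i * Fv n (a+1) j + Hv n a i * Hv n a j) hm]
  rw [Hv_top]
  simp only [Pi.zero_apply]
  ring

theorem f_coeff_zero_even (r c : ℕ) (h : Even r) : (f 1 r c).coeff 0 = 0 := by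
  obtain ⟨k, rfl⟩ := h
  rw [f, mul_coeff_zero]
  have := (p_coeff_zero 1 k).1
  rw [two_mul] at this
  rw [this, zero_mul]

theorem f_coeff_zero_odd (r c : ℕ) (h : Odd r) (h' : Odd c) : (f 1 r c).coeff 0 = 1 ∨ (f 1 r c).coeff 0 = -1 := by
  obtain ⟨k, rfl⟩ := h
  obtain ⟨l, rfl⟩ := h'
  rw [f, mul_coeff_zero, (p_coeff_zero 1 k).2, (p_coeff_zero (-1) l).2]
  simp only [one_pow, one_mul]
  exact neg_one_pow_eq_or ℤ l

theorem square_class (n m : ℕ) (hm : m ≤ 2*n) :
    IsSquare ((-1:ℚ)^n * ((if Even m then 1 else 2) : ℚ) * ((2:ℚ)^n * ((BB n m).det : ℤ))) := by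
  -- the matrix without row 0 and last column
  have hsub : ((GG n m).submatrix Fin.succ Fin.castSucc).det = (2:ℚ)^n * ((BB n m).det : ℤ) := by
    have : (GG n m).submatrix Fin.succ Fin.castSucc = (2:ℚ) • ((BB n m).map (Int.castRingHom ℚ)) := by
      ext l j
      simp only [submatrix_apply, GG, of_apply, Matrix.smul_apply, map_apply, BB, smul_eq_mul]
      rw [eq_intCast, Int.cast_sum, Finset.mul_sum]
      apply Finset.sum_congr rfl
      intro a _
      have : 2 * ((Fin.succ l : Fin (n+1)) : ℕ) = (2 * (l:ℕ) + 1) + 1 := by simp; ring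
      rw [this, coeff_X_mul]
      push_cast
      simp only [Fin.val_castSucc]
      ring
    rw [this, det_smul, Fintype.card_fin]
    congr 1
    rw [← RingHom.mapMatrix_apply, ← RingHom.map_det]; rfl
  have hrow : ∀ j, GG n m 0 j = 0 := by
    intro j
    simp [GG]
  have hcol : ∀ i, GG n m i (Fin.last n) = 0 := by
    intro i
    simp only [GG, of_apply]
    apply Finset.sum_eq_zero
    intro a ha
    rw [Finset.mem_Ico] at ha
    have : (psi n a).coeff (2*((Fin.last n : Fin (n+1)):ℕ)) = 0 := by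
      rw [psi, coeff_sub, f_coeff_gt, sub_eq_zero]
      · symm
        rcases Nat.eq_zero_or_pos a with h | h
        · rw [h]; simp
        · apply f_coeff_gt; simp; omega
      · simp; omega
    rw [this]; simp
  -- coefficients
  have hF0 : Fv n (2*n+1) 0 = 1 := by
    simp only [Fv]
    have : 2*n+2-(2*n+1) = 1 := by omega
    rw [this, f, p_one, mul_one]
    have := (p_coeff_zero 1 n).2
    simp [this]
  have hFl : Fv n (2*n+1) (Fin.last n) = 1 := by
    simp only [Fv]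
    have : 2*n+2-(2*n+1) = 1 := by omega
    rw [this, f, p_one, mul_one]
    have := p_coeff_top 1 (2*n)
    simp [this]
  have hHl : Hv n m (Fin.last n) = 0 := by
    simp only [Hv]
    have : (f 1 m (2*n-m)).coeff (2*((Fin.last n : Fin (n+1)):ℕ)) = 0 := by
      rcases Nat.eq_zero_or_pos m with h | h
      · rw [h]; simp
      · apply f_coeff_gt; simp; omega
    rw [this]; simp
  -- the perturbation with sign
  have main : ∀ s : ℚ, s = 1 ∨ s = -1 →
      IsSquare ((-1:ℚ)^n * ((Hv n m 0 - s) * (-s)) * ((2:ℚ)^n * ((BB n m).det : ℤ))) := by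
    intro s hs
    have hss : s * s = 1 := by rcases hs with h | h <;> rw [h] <;> norm_num
    set c : Fin (n+1) → ℚ := fun i => s * Fv n (2*n+1) i with hc
    have h1 := det_add_rank_one (GG n m) (Hv n m - c) (-(Hv n m + c)) hrow hcol
    have h2 : GG n m + vecMulVec (Hv n m - c) (-(Hv n m + c))
        = (KK n m - vecMulVec (Hv n m) c + vecMulVec c (Hv n m)) + vecMulVec (Fv n (m+1)) (Fv n (m+1)) := by
      rw [GG_eq n m hm]
      ext i j
      simp only [Matrix.add_apply, Matrix.sub_apply, vecMulVec_apply, Pi.sub_apply, Pi.neg_apply, Pi.add_apply, hc]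
      linear_combination (Fv n (2*n+1) i * Fv n (2*n+1) j) * hss
    have h3 : IsSquare ((KK n m - vecMulVec (Hv n m) c + vecMulVec c (Hv n m)) + vecMulVec (Fv n (m+1)) (Fv n (m+1))).det := by
      apply isSquare_det_skew_add
      rw [transpose_add, transpose_sub, KK_skew, transpose_vecMulVec, transpose_vecMulVec]
      abel
    rw [← h2, h1, hsub] at h3
    have h4 : (Hv n m - c) 0 * (-(Hv n m + c)) (Fin.last n) = (Hv n m 0 - s) * (-s) := by
      simp only [Pi.sub_apply, Pi.neg_apply, Pi.add_apply, hc, hF0, hFl, hHl]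
      ring
    rw [h4] at h3
    exact h3
  by_cases he : Even m
  · rw [if_pos he]
    have h0 : Hv n m 0 = 0 := by
      simp only [Hv]
      rw [show 2 * ((0 : Fin (n+1)) : ℕ) = 0 by simp, f_coeff_zero_even _ _ he]; simp
    have := main 1 (Or.inl rfl)
    rw [h0] at this
    convert this using 3
    ring
  · rw [if_neg he]
    rw [Nat.not_even_iff_odd] at he
    have ho : Odd (2*n - m) := by
      obtain ⟨k, hk⟩ := he
      exact ⟨n - k - 1, by omega⟩
    rcases f_coeff_zero_odd m (2*n-m) he ho with h | h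
    · have h0 : Hv n m 0 = 1 := by
        simp only [Hv]
        rw [show 2 * ((0 : Fin (n+1)) : ℕ) = 0 by simp, h]; simp
      have := main (-1) (Or.inr rfl)
      rw [h0] at this
      convert this using 3
      ring
    · have h0 : Hv n m 0 = -1 := by
        simp only [Hv]
        rw [show 2 * ((0 : Fin (n+1)) : ℕ) = 0 by simp, h]; simp
      have := main 1 (Or.inl rfl)
      rw [h0] at this
      convert this using 3
      ring


/-! ### parity -/

theorem p_map_two (r : ℕ) : (p 1 r).map (Int.castRingHom (ZMod 2)) = (p (-1) r).map (Int.castRingHom (ZMod 2)) := by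
  induction r using Nat.strong_induction_on with
  | _ r ih =>
    match r, ih with
    | 0, _ => simp
    | 1, _ => simp
    | (r+2), ih =>
      rw [p_add_two, p_add_two, Polynomial.map_mul, Polynomial.map_mul, Polynomial.map_add, Polynomial.map_add,
        Polynomial.map_mul, Polynomial.map_mul, ih (r+1) (by omega), ih r (by omega)]
      congr 1
      simp only [Polynomial.map_C]
      congr 1

theorem psi_sum_even (n i k : ℕ) (hi : i < n) :
    (2:ℤ) ∣ (psi n (2*n-1-i)).coeff k + (psi n i).coeff k := by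
  have h : (psi n (2*n-1-i) + psi n i).map (Int.castRingHom (ZMod 2)) = 0 := by
    have e1 : 2*n-1-i+1 = 2*n-i := by omega
    have e2 : 2*n-1-(2*n-1-i) = i := by omega
    have e3 : 2*n-(2*n-1-i) = i+1 := by omega
    simp only [psi, f, e1, e2, e3, Polynomial.map_add, Polynomial.map_sub, Polynomial.map_mul, p_map_two]
    ring
  have h2 := congrArg (fun q => q.coeff k) h
  simp only [coeff_map, coeff_add, coeff_zero, eq_intCast] at h2
  exact (ZMod.intCast_zmod_eq_zero_iff_dvd _ 2).1 h2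

/-- half of the sum -/
noncomputable def sg (n : ℕ) : Matrix (Fin n) (Fin n) ℤ :=
  Matrix.of fun i j => ((psi n (2*n-1-(i:ℕ))).coeff (2*(j:ℕ)) + (psi n i).coeff (2*(j:ℕ))) / 2

noncomputable def PP (n : ℕ) : Matrix (Fin n) (Fin n) ℤ := Matrix.of fun i j => (psi n i).coeff (2*(j:ℕ))

theorem sg_eq (n : ℕ) (i j : Fin n) :
    (psi n (2*n-1-(i:ℕ))).coeff (2*(j:ℕ)) = - PP n i j + 2 * sg n i j := by
  simp only [sg, PP, of_apply]
  have := Int.mul_ediv_cancel' (psi_sum_even n i (2*(j:ℕ)) i.2)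
  rw [this]; ring

/-- the matrix `M2` -/
noncomputable def M2 (n m : ℕ) : Matrix (Fin n ⊕ Fin n) (Fin n ⊕ Fin n) ℤ :=
  fromBlocks (PP n) (Matrix.of fun i j => if m ≤ (i:ℕ) then (-1)^(i:ℕ) * PP n i j else 0)
    (Matrix.of fun i j => if m ≤ (i:ℕ) then sg n i j else 2 * sg n i j)
    (Matrix.of fun i j => if m ≤ (i:ℕ) then (-1)^(i:ℕ) * (PP n i j - sg n i j)
      else (-1)^(i:ℕ) * (PP n i j - 2 * sg n i j))

theorem MM_factor (n m : ℕ) (hm : m ≤ n) : MM n m =
    fromBlocks (1 : Matrix (Fin n) (Fin n) ℤ) 0 (-1) (Matrix.diagonal fun i : Fin n => if m ≤ (i:ℕ) then 2 else 1) * M2 n m := by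
  rw [M2, fromBlocks_multiply]
  ext r c
  rcases r with i | i <;> rcases c with j | j
  · simp [MM, pos, PP]
  · simp only [MM, pos, PP, of_apply, Sum.elim_inl, Sum.elim_inr, fromBlocks_apply₁₂, Matrix.one_mul, Matrix.zero_mul, add_zero]
    all_goals rfl
  · simp only [MM, pos, of_apply, Sum.elim_inl, Sum.elim_inr, fromBlocks_apply₂₁, Matrix.neg_mul, Matrix.one_mul,
      Matrix.add_apply, Matrix.neg_apply, diagonal_mul]
    rw [sg_eq]
    split_ifs <;> ring
  · simp only [MM, of_apply, Sum.elim_inr, fromBlocks_apply₂₂, Matrix.neg_mul, Matrix.one_mul,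
      Matrix.add_apply, Matrix.neg_apply, diagonal_mul]
    have hi := i.2
    have hpe : pos n (Sum.inr i) = 2*n-1-(i:ℕ) := rfl
    have hmi : m ≤ pos n (Sum.inr i) := by rw [hpe]; omega
    rw [if_pos hmi, hpe, sg_eq]
    have hp : (-1 : ℤ)^(2*n-1-(i:ℕ)) = -(-1)^(i:ℕ) := by
      have e : 2*n-1-(i:ℕ) + (i:ℕ) = 2*(n-1)+1 := by omega
      have h1 : (-1 : ℤ)^(2*n-1-(i:ℕ)) * (-1)^(i:ℕ) = -1 := by
        rw [← pow_add, e, pow_succ, pow_mul]; simp
      have h2 : (-1 : ℤ)^(i:ℕ) * (-1)^(i:ℕ) = 1 := by rw [← mul_pow]; simp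
      calc (-1 : ℤ)^(2*n-1-(i:ℕ)) = (-1 : ℤ)^(2*n-1-(i:ℕ)) * ((-1 : ℤ)^(i:ℕ) * (-1)^(i:ℕ)) := by rw [h2, mul_one]
        _ = ((-1 : ℤ)^(2*n-1-(i:ℕ)) * (-1 : ℤ)^(i:ℕ)) * (-1)^(i:ℕ) := by ring
        _ = -(-1)^(i:ℕ) := by rw [h1]; ring
    rw [hp]
    split_ifs
    · ring
    · ring

theorem neg_one_pow_zmod2 (k : ℕ) : ((-1 : ZMod 2))^k = 1 := by
  have : (-1 : ZMod 2) = 1 := by decide
  rw [this, one_pow]

theorem M2_odd (n m : ℕ) : Odd (M2 n m).det := by
  have hdet : (((M2 n m).det : ℤ) : ZMod 2) = 1 := by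
    have h0 : (((M2 n m).det : ℤ) : ZMod 2) = ((M2 n m).map (Int.castRingHom (ZMod 2))).det := by
      rw [← RingHom.mapMatrix_apply, ← RingHom.map_det]; rfl
    rw [h0]
    set P : Matrix (Fin n) (Fin n) (ZMod 2) := (PP n).map (Int.castRingHom (ZMod 2)) with hP
    set S : Matrix (Fin n) (Fin n) (ZMod 2) := (sg n).map (Int.castRingHom (ZMod 2)) with hS
    set E : Matrix (Fin n) (Fin n) (ZMod 2) := Matrix.diagonal (fun i : Fin n => if m ≤ (i:ℕ) then 1 else 0) with hE
    have hPu : IsUnit P.det := by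
      have : P.det = (Int.castRingHom (ZMod 2)) (PP n).det := by
        rw [hP, ← RingHom.mapMatrix_apply, ← RingHom.map_det]
      rw [this]
      exact (MM_block_unit n).map (Int.castRingHom (ZMod 2))
    have hM : (M2 n m).map (Int.castRingHom (ZMod 2)) = fromBlocks P (E * P) (E * S) (P + E * S) := by
      ext r c
      rcases r with i | i <;> rcases c with j | j
      · simp [M2, hP]
      · simp only [M2, map_apply, fromBlocks_apply₁₂, of_apply, hE, diagonal_mul, hP]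
        split_ifs
        · simp
        · simp
      · simp only [M2, map_apply, fromBlocks_apply₂₁, of_apply, hE, diagonal_mul, hS]
        split_ifs
        · simp
        · have : (2 : ZMod 2) = 0 := rfl
          simp [this]
      · simp only [M2, map_apply, fromBlocks_apply₂₂, of_apply, hE, diagonal_mul, hS, hP, Matrix.add_apply]
        have h2 : (2 : ZMod 2) = 0 := rfl
        have h3 : ∀ x : ZMod 2, -x = x := fun x => ZMod.neg_eq_self_mod_two x
        split_ifs
        · simp [sub_eq_add_neg, h3]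
        · simp [h2]
    rw [hM]
    set Z := S * P⁻¹ with hZ
    have hSZ : S = Z * P := by
      rw [hZ, Matrix.mul_assoc, nonsing_inv_mul _ hPu, Matrix.mul_one]
    have hfac : fromBlocks P (E * P) (E * S) (P + E * S) = fromBlocks 1 E (E * Z) (1 + E * Z) * fromBlocks P 0 0 P := by
      rw [fromBlocks_multiply, hSZ]
      simp [Matrix.mul_assoc, Matrix.add_mul]
    rw [hfac, det_mul, det_fromBlocks_one₁₁, det_fromBlocks_zero₂₁]
    have h1 : 1 + E * Z - E * Z * E = 1 + E * (Z * (1 - E)) := by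
      rw [Matrix.mul_sub, Matrix.mul_sub, Matrix.mul_one, Matrix.mul_assoc]
      abel
    rw [h1, det_one_add_mul_comm]
    have hEE : (1 - E) * E = 0 := by
      rw [Matrix.sub_mul, Matrix.one_mul, hE, diagonal_mul_diagonal, sub_eq_zero]
      congr 1
      ext i
      split_ifs <;> simp
    rw [Matrix.mul_assoc, hEE, Matrix.mul_zero, add_zero, det_one, one_mul]
    have : ∀ x : ZMod 2, IsUnit x → x * x = 1 := by decide
    exact this _ hPu
  rw [← Int.not_even_iff_odd, even_iff_two_dvd]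
  intro h
  have := (ZMod.intCast_zmod_eq_zero_iff_dvd (M2 n m).det 2).2 h
  rw [this] at hdet
  exact absurd hdet (by decide)

theorem MM_two_adic (n m : ℕ) (hm : m ≤ n) : ∃ o : ℤ, Odd o ∧ (MM n m).det = 2^(n-m) * o := by
  refine ⟨(M2 n m).det, M2_odd n m, ?_⟩
  rw [MM_factor n m hm, det_mul, det_fromBlocks_zero₁₂, det_one, one_mul, det_diagonal]
  congr 1
  rw [Fin.prod_univ_eq_prod_range (fun i => if m ≤ i then (2:ℤ) else 1) n]
  rw [← Finset.prod_filter]
  rw [Finset.prod_const]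
  congr 1
  have : (Finset.range n).filter (fun a => m ≤ a) = Finset.Ico m n := by
    ext a; simp; omega
  rw [this, Nat.card_Ico]

/-- the arithmetic conclusion -/
theorem arith_main (n m : ℕ) (hm : m ≤ n) (T : ℕ) (hT : (T:ℤ) = |(MM n m).det|) :
    ∃ k : ℕ, Odd k ∧ T = 2^(n-m) * k^2 := by
  obtain ⟨o, ho, hdet⟩ := MM_two_adic n m hm
  have hT1 : (T:ℤ) = 2^(n-m) * |o| := by
    rw [hT, hdet, abs_mul, abs_of_pos (by positivity)]
  have hT2 : T = 2^(n-m) * o.natAbs := by
    have : (T:ℤ) = ((2^(n-m) * o.natAbs : ℕ) : ℤ) := by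
      rw [hT1]; push_cast; rfl
    exact_mod_cast this
  have hsq := square_class n m (by omega)
  have hB : |(BB n m).det| = (T:ℤ) := by rw [← abs_det_MM, hT]
  -- T as a natural number: c * 2^n * T is a square
  have hsq2 : IsSquare (((if Even m then 1 else 2) * 2^n * T : ℕ)) := by
    have h1 : IsSquare |((-1:ℚ)^n * ((if Even m then 1 else 2) : ℚ) * ((2:ℚ)^n * ((BB n m).det : ℤ)))| := by
      obtain ⟨r, hr⟩ := hsq
      exact ⟨r, by rw [hr, abs_mul_self]⟩
    rw [abs_mul, abs_mul, abs_mul, abs_pow, abs_neg, abs_one, one_pow, one_mul] at h1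
    have h2 : |(((BB n m).det : ℤ) : ℚ)| = (T : ℚ) := by
      rw [← Int.cast_abs, hB]; simp
    rw [h2] at h1
    have h3 : |((if Even m then 1 else 2) : ℚ)| * (|(2:ℚ)^n| * (T:ℚ)) = (((if Even m then 1 else 2) * 2^n * T : ℕ) : ℚ) := by
      push_cast
      split_ifs <;> simp <;> ring
    rw [h3] at h1
    exact Rat.isSquare_natCast_iff.1 h1
  -- extract
  have hexp : ∃ e, (if Even m then 1 else 2) * 2^n * T = (2^e)^2 * o.natAbs := by
    split_ifs with hme
    · obtain ⟨k, rfl⟩ := hme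
      refine ⟨n-k, ?_⟩
      rw [hT2, one_mul, ← mul_assoc, ← pow_add, ← pow_mul]
      congr 2; omega
    · rw [Nat.not_even_iff_odd] at hme
      obtain ⟨k, rfl⟩ := hme
      refine ⟨n-k, ?_⟩
      rw [hT2, ← mul_assoc, ← pow_succ', ← pow_add, ← pow_mul]
      congr 2; omega
  obtain ⟨e, he⟩ := hexp
  rw [he] at hsq2
  obtain ⟨r, hr⟩ := hsq2
  have hdvd : (2^e)^2 ∣ r^2 := ⟨o.natAbs, by rw [hr]; ring⟩
  rw [Nat.pow_dvd_pow_iff (by norm_num)] at hdvd
  obtain ⟨k, rfl⟩ := hdvd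
  have hk : o.natAbs = k^2 := by
    have h4 : (2^e)^2 * o.natAbs = (2^e)^2 * k^2 := by rw [hr]; ring
    exact Nat.eq_of_mul_eq_mul_left (by positivity) h4
  refine ⟨k, ?_, by rw [hT2, hk]⟩
  have ho' : Odd (o.natAbs) := Int.natAbs_odd.2 ho
  rw [hk] at ho'
  exact (Nat.odd_pow_iff (by norm_num)).1 ho'

/-- the arithmetic conclusion for all `m` -/
theorem arith_all (n m : ℕ) (hm : m ≤ 2*n) (T : ℕ) (hT : (T:ℤ) = |(MM n m).det|) :
    ∃ k : ℕ, T = k^2 ∨ T = 2 * k^2 := by
  have hsq := square_class n m hm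
  have hB : |(BB n m).det| = (T:ℤ) := by rw [← abs_det_MM, hT]
  have hsq2 : IsSquare (((if Even m then 1 else 2) * 2^n * T : ℕ)) := by
    have h1 : IsSquare |((-1:ℚ)^n * ((if Even m then 1 else 2) : ℚ) * ((2:ℚ)^n * ((BB n m).det : ℤ)))| := by
      obtain ⟨r, hr⟩ := hsq
      exact ⟨r, by rw [hr, abs_mul_self]⟩
    rw [abs_mul, abs_mul, abs_mul, abs_pow, abs_neg, abs_one, one_pow, one_mul] at h1
    have h2 : |(((BB n m).det : ℤ) : ℚ)| = (T : ℚ) := by
      rw [← Int.cast_abs, hB]; simp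
    rw [h2] at h1
    have h3 : |((if Even m then 1 else 2) : ℚ)| * (|(2:ℚ)^n| * (T:ℚ)) = (((if Even m then 1 else 2) * 2^n * T : ℕ) : ℚ) := by
      push_cast
      split_ifs <;> simp <;> ring
    rw [h3] at h1
    exact Rat.isSquare_natCast_iff.1 h1
  -- parity of the exponent of two
  have hexp : ∃ e, (if Even m then 1 else 2) * 2^n * T = (2^e)^2 * T ∨ (if Even m then 1 else 2) * 2^n * T = (2^e)^2 * (2 * T) := by
    have : ∃ N, (if Even m then 1 else 2) * 2^n = 2^N := by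
      split_ifs
      · exact ⟨n, by ring⟩
      · exact ⟨n+1, by ring⟩
    obtain ⟨N, hN⟩ := this
    rw [hN]
    rcases Nat.even_or_odd N with ⟨k, rfl⟩ | ⟨k, rfl⟩
    · exact ⟨k, Or.inl (by ring)⟩
    · exact ⟨k, Or.inr (by ring)⟩
  obtain ⟨e, he | he⟩ := hexp
  · rw [he] at hsq2
    obtain ⟨r, hr⟩ := hsq2
    have hdvd : (2^e)^2 ∣ r^2 := ⟨T, by rw [sq r, ← hr]⟩
    rw [Nat.pow_dvd_pow_iff (by norm_num)] at hdvd
    obtain ⟨k, rfl⟩ := hdvd
    refine ⟨k, Or.inl ?_⟩
    have h4 : (2^e)^2 * T = (2^e)^2 * k^2 := by rw [hr]; ring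
    exact Nat.eq_of_mul_eq_mul_left (by positivity) h4
  · rw [he] at hsq2
    obtain ⟨r, hr⟩ := hsq2
    have hdvd : (2^e)^2 ∣ r^2 := ⟨2*T, by rw [sq r, ← hr]⟩
    rw [Nat.pow_dvd_pow_iff (by norm_num)] at hdvd
    obtain ⟨k, rfl⟩ := hdvd
    have h4 : (2^e)^2 * (2 * T) = (2^e)^2 * k^2 := by rw [hr]; ring
    have h5 : 2 * T = k^2 := Nat.eq_of_mul_eq_mul_left (by positivity) h4
    have h6 : Even k := by
      have : Even (k^2) := ⟨T, by omega⟩
      exact (Nat.even_pow.1 this).1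
    obtain ⟨l, rfl⟩ := h6
    refine ⟨l, Or.inr ?_⟩
    have : 2 * T = 2 * (2 * l^2) := by rw [h5]; ring
    omega

end Pool.Agent.Dom84
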