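import Mathlib
import Pool.Agent.Dom84.Alg2

set_option autoImplicit false

/-! The Kasteleyn matrix and its elimination. -/

namespace Pool.Agent.Dom84

open Matrix Polynomial

/-- unitriangular determinants -/
theorem det_unitri {ι : Type*} [Fintype ι] [DecidableEq ι] (M : Matrix ι ι ℤ) (h : ι → ℕ)
    (hd : ∀ i, M i i = 1) (ht : ∀ i j, M i j ≠ 0 → i = j ∨ h i < h j) : M.det = 1 := by
  rw [det_apply]
  rw [Finset.sum_eq_single 1]
  · simp [hd]
  · intro σ _ hσ
    by_contra hne
    have hprod : ∏ i, M (σ i) i ≠ 0 := by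
      intro h0; rw [h0] at hne; simp at hne
    rw [Finset.prod_ne_zero_iff] at hprod
    have h1 : ∀ i, σ i = i ∨ h (σ i) < h i := fun i => ht _ _ (hprod i (Finset.mem_univ i))
    have h2 : ∃ i, σ i ≠ i := by
      by_contra hc
      push Not at hc
      exact hσ (Equiv.ext hc)
    obtain ⟨i0, hi0⟩ := h2
    have h3 : ∑ i, h (σ i) < ∑ i, h i := by
      apply Finset.sum_lt_sum
      · intro i _
        rcases h1 i with h | h
        · rw [h]
        · exact h.le
      · refine ⟨i0, Finset.mem_univ _, ?_⟩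
        rcases h1 i0 with h | h
        · exact absurd h hi0
        · exact h
    rw [Equiv.sum_comp σ h] at h3
    exact lt_irrefl _ h3
  · intro h; exact absurd (Finset.mem_univ _) h

/-- white cells of the `2n × 2n` square -/
abbrev Wt (n : ℕ) := {x : Fin (2*n) × Fin (2*n) // Even (x.1.val + x.2.val)}
/-- black cells of the `2n × 2n` square -/
abbrev Bt (n : ℕ) := {x : Fin (2*n) × Fin (2*n) // ¬ Even (x.1.val + x.2.val)}
/-- off-diagonal white cells of the `2n × 2n` square -/
abbrev Wo (n : ℕ) := {x : Fin (2*n) × Fin (2*n) // Even (x.1.val + x.2.val) ∧ x.1 ≠ x.2}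

/-- weight -/
def kf (m a b a' b' : ℕ) : ℤ :=
  (if a' = a ∧ b' = b + 1 then (if a ≤ b then 1 else -1) else 0)
  + (if a = a' + 1 ∧ b' = b then (if a ≤ b then -1 else 1) else 0)
  + (if a' = a ∧ b = b' + 1 then (if a = b ∧ a < m then 0 else 1) else 0)
  + (if a' = a + 1 ∧ b' = b then (if a = b ∧ a < m then 0 else 1) else 0)

/-- Kasteleyn matrix -/
def KM (n m : ℕ) : Matrix (Wt n) (Bt n) ℤ :=
  Matrix.of fun w y => kf m w.1.1.val w.1.2.val y.1.1.val y.1.2.val

/-- null vectors -/
noncomputable def phiU (n j a b : ℕ) : ℤ := if a < b then (f 1 (a+1) (2*n-b)).coeff (2*j) else 0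
noncomputable def phiL (n j a b : ℕ) : ℤ := if b < a then (-1)^b * (f 1 (b+1) (2*n-a)).coeff (2*j) else 0

theorem sum_single (n a0 b0 : ℕ) (c : ℤ) (φ : ℕ → ℕ → ℤ) :
    ∑ y : Bt n, (if y.1.1.val = a0 ∧ y.1.2.val = b0 then c else 0) * φ y.1.1.val y.1.2.val
      = if a0 < 2*n ∧ b0 < 2*n ∧ ¬ Even (a0 + b0) then c * φ a0 b0 else 0 := by
  split_ifs with h
  · obtain ⟨ha, hb, he⟩ := h
    rw [Finset.sum_eq_single (⟨(⟨a0, ha⟩, ⟨b0, hb⟩), he⟩ : Bt n)]
    · simp
    · rintro ⟨⟨⟨a, ha'⟩, ⟨b, hb'⟩⟩, hy⟩ _ hne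
      have : ¬ (a = a0 ∧ b = b0) := by
        rintro ⟨rfl, rfl⟩
        exact hne rfl
      simp [this]
    · intro h; exact absurd (Finset.mem_univ _) h
  · apply Finset.sum_eq_zero
    rintro ⟨⟨⟨a, ha'⟩, ⟨b, hb'⟩⟩, hy⟩ _
    have : ¬ (a = a0 ∧ b = b0) := by
      rintro ⟨rfl, rfl⟩
      exact h ⟨ha', hb', hy⟩
    simp [this]

theorem KM_sum (n m a b : ℕ) (ha : a < 2*n) (hb : b < 2*n) (he : Even (a+b)) (φ : ℕ → ℕ → ℤ) :
    ∑ y : Bt n, kf m a b y.1.1.val y.1.2.val * φ y.1.1.val y.1.2.val
      = (if b + 1 < 2*n then (if a ≤ b then 1 else -1) * φ a (b+1) else 0)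
      + (if 1 ≤ a then (if a ≤ b then -1 else 1) * φ (a-1) b else 0)
      + (if 1 ≤ b then (if a = b ∧ a < m then 0 else 1) * φ a (b-1) else 0)
      + (if a + 1 < 2*n then (if a = b ∧ a < m then 0 else 1) * φ (a+1) b else 0) := by
  have hx : ∀ y : Bt n, kf m a b y.1.1.val y.1.2.val * φ y.1.1.val y.1.2.val
     = (if y.1.1.val = a ∧ y.1.2.val = b + 1 then (if a ≤ b then (1:ℤ) else -1) else 0) * φ y.1.1.val y.1.2.val
      + (if 1 ≤ a then (if y.1.1.val = a - 1 ∧ y.1.2.val = b then (if a ≤ b then (-1:ℤ) else 1) else 0) * φ y.1.1.val y.1.2.val else 0)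
      + (if 1 ≤ b then (if y.1.1.val = a ∧ y.1.2.val = b - 1 then (if a = b ∧ a < m then (0:ℤ) else 1) else 0) * φ y.1.1.val y.1.2.val else 0)
      + (if y.1.1.val = a + 1 ∧ y.1.2.val = b then (if a = b ∧ a < m then (0:ℤ) else 1) else 0) * φ y.1.1.val y.1.2.val := by
    intro y
    unfold kf
    have e1 : (a = y.1.1.val + 1 ∧ y.1.2.val = b) ↔ (1 ≤ a ∧ (y.1.1.val = a - 1 ∧ y.1.2.val = b)) := by omega
    have e2 : (y.1.1.val = a ∧ b = y.1.2.val + 1) ↔ (1 ≤ b ∧ (y.1.1.val = a ∧ y.1.2.val = b - 1)) := by omega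
    simp only [e1, e2, ite_and]
    split_ifs <;> ring
  simp_rw [hx]
  rw [Finset.sum_add_distrib, Finset.sum_add_distrib, Finset.sum_add_distrib]
  congr 1
  · congr 1
    · congr 1
      · rw [sum_single]
        have : ¬ Even (a + (b+1)) := by
          rw [← add_assoc, Nat.even_add_one]; exact not_not.2 he
        by_cases h : b + 1 < 2*n
        · rw [if_pos ⟨ha, h, this⟩, if_pos h]
        · rw [if_neg (fun hh => h hh.2.1), if_neg h]
      · by_cases h : 1 ≤ a
        · simp only [h, if_true]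
          rw [sum_single]
          have : ¬ Even (a - 1 + b) := by
            intro h2
            have : a + b = (a - 1 + b) + 1 := by omega
            rw [this, Nat.even_add_one] at he
            exact he h2
          rw [if_pos ⟨by omega, hb, this⟩]
        · simp [h]
    · by_cases h : 1 ≤ b
      · simp only [h, if_true]
        rw [sum_single]
        have : ¬ Even (a + (b - 1)) := by
          intro h2
          have : a + b = (a + (b - 1)) + 1 := by omega
          rw [this, Nat.even_add_one] at he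
          exact he h2
        rw [if_pos ⟨ha, by omega, this⟩]
      · simp [h]
  · rw [sum_single]
    have : ¬ Even (a + 1 + b) := by
      have : a + 1 + b = (a + b) + 1 := by ring
      rw [this, Nat.even_add_one]; exact not_not.2 he
    by_cases h : a + 1 < 2*n
    · rw [if_pos ⟨h, hb, this⟩, if_pos h]
    · rw [if_neg (fun hh => h hh.1), if_neg h]

theorem f_rel1' (c a k : ℕ) (hc : 1 ≤ c) :
    (f 1 (a+1) (c-1)).coeff k - (f 1 a c).coeff k + (f 1 (a+1) (c+1)).coeff k + (f 1 (a+2) c).coeff k = 0 := by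
  obtain ⟨c, rfl⟩ : ∃ c', c = c' + 1 := ⟨c-1, by omega⟩
  have h := congrArg (fun q => q.coeff k) (f_rel1 1 a c)
  simp only [C_1, neg_mul, one_mul, coeff_add, coeff_neg, coeff_sub] at h
  have e : c + 1 - 1 = c := by omega
  have e2 : c + 1 + 1 = c + 2 := by omega
  rw [e, e2]
  linarith

theorem null_U_off (n m j a b : ℕ) (ha : a < 2*n) (hb : b < 2*n) (he : Even (a+b)) (hne : a ≠ b) :
    ∑ y : Bt n, kf m a b y.1.1.val y.1.2.val * phiU n j y.1.1.val y.1.2.val = 0 := by
  rw [KM_sum n m a b ha hb he (phiU n j)]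
  have hne' : ¬ (a = b ∧ a < m) := fun h => hne h.1
  rw [if_neg hne']
  rcases lt_or_gt_of_ne hne with h | h
  · have h2 : a + 2 ≤ b := by
      obtain ⟨k, hk⟩ := he
      omega
    have hab : a ≤ b := h.le
    rw [if_pos hab, if_pos hab]
    have h1 : 1 ≤ b := by omega
    have h3 : a + 1 < 2*n := by omega
    rw [if_pos h1, if_pos h3]
    have hR : (if b + 1 < 2*n then 1 * phiU n j a (b+1) else 0) = (f 1 (a+1) (2*n-b-1)).coeff (2*j) := by
      split_ifs with h4
      · unfold phiU
        rw [if_pos (by omega), one_mul, Nat.sub_sub]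
      · have : 2*n-b-1 = 0 := by omega
        rw [this]; simp
    have hD : (if 1 ≤ a then -1 * phiU n j (a-1) b else 0) = - (f 1 a (2*n-b)).coeff (2*j) := by
      split_ifs with h4
      · unfold phiU
        rw [if_pos (by omega)]
        have : a - 1 + 1 = a := by omega
        rw [this]; ring
      · have : a = 0 := by omega
        rw [this]; simp
    have hL : phiU n j a (b-1) = (f 1 (a+1) (2*n-b+1)).coeff (2*j) := by
      unfold phiU
      rw [if_pos (by omega)]
      congr 2; omega
    have hU : phiU n j (a+1) b = (f 1 (a+2) (2*n-b)).coeff (2*j) := by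
      unfold phiU
      rw [if_pos (by omega)]
    rw [hR, hD, hL, hU]
    have := f_rel1' (2*n-b) a (2*j) (by omega)
    linarith
  · -- all neighbours are on the other side
    have h2 : b + 2 ≤ a := by
      obtain ⟨k, hk⟩ := he
      omega
    have z : ∀ x y, y ≤ x → phiU n j x y = 0 := by
      intro x y hxy; unfold phiU; rw [if_neg (by omega)]
    rw [z a (b+1) (by omega), z (a-1) b (by omega), z a (b-1) (by omega), z (a+1) b (by omega)]
    simp

theorem null_L_off (n m j a b : ℕ) (ha : a < 2*n) (hb : b < 2*n) (he : Even (a+b)) (hne : a ≠ b) :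
    ∑ y : Bt n, kf m a b y.1.1.val y.1.2.val * phiL n j y.1.1.val y.1.2.val = 0 := by
  rw [KM_sum n m a b ha hb he (phiL n j)]
  have hne' : ¬ (a = b ∧ a < m) := fun h => hne h.1
  rw [if_neg hne']
  rcases lt_or_gt_of_ne hne with h | h
  · have h2 : a + 2 ≤ b := by
      obtain ⟨k, hk⟩ := he
      omega
    have z : ∀ x y, x ≤ y → phiL n j x y = 0 := by
      intro x y hxy; unfold phiL; rw [if_neg (by omega)]
    rw [z a (b+1) (by omega), z (a-1) b (by omega), z a (b-1) (by omega), z (a+1) b (by omega)]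
    simp
  · have h2 : b + 2 ≤ a := by
      obtain ⟨k, hk⟩ := he
      omega
    have hab : ¬ (a ≤ b) := by omega
    rw [if_neg hab, if_neg hab]
    have h1 : 1 ≤ a := by omega
    have h3 : b + 1 < 2*n := by omega
    rw [if_pos h3, if_pos h1]
    have hR : phiL n j a (b+1) = -(-1)^b * (f 1 (b+2) (2*n-a)).coeff (2*j) := by
      unfold phiL
      rw [if_pos (by omega), pow_succ]
      ring
    have hD : phiL n j (a-1) b = (-1)^b * (f 1 (b+1) (2*n-a+1)).coeff (2*j) := by
      unfold phiL
      rw [if_pos (by omega)]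
      congr 3; omega
    have hL : (if 1 ≤ b then 1 * phiL n j a (b-1) else 0) = - (-1)^b * (f 1 b (2*n-a)).coeff (2*j) := by
      split_ifs with h4
      · unfold phiL
        rw [if_pos (by omega)]
        obtain ⟨b, rfl⟩ : ∃ b', b = b' + 1 := ⟨b-1, by omega⟩
        simp only [Nat.add_sub_cancel]
        rw [pow_succ]; ring
      · have : b = 0 := by omega
        rw [this]; simp
    have hU : (if a + 1 < 2*n then 1 * phiL n j (a+1) b else 0) = (-1)^b * (f 1 (b+1) (2*n-a-1)).coeff (2*j) := by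
      split_ifs with h4
      · unfold phiL
        rw [if_pos (by omega), one_mul, Nat.sub_sub]
      · have : 2*n-a-1 = 0 := by omega
        rw [this]; simp
    rw [hR, hD, hL, hU]
    have := f_rel1' (2*n-a) b (2*j) (by omega)
    linear_combination (-1)^b * this

theorem diag_U (n m j a : ℕ) (ha : a < 2*n) :
    ∑ y : Bt n, kf m a a y.1.1.val y.1.2.val * phiU n j y.1.1.val y.1.2.val = (psi n a).coeff (2*j) := by
  rw [KM_sum n m a a ha ha ⟨a, rfl⟩ (phiU n j)]
  have z : ∀ x y, y ≤ x → phiU n j x y = 0 := by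
    intro x y hxy; unfold phiU; rw [if_neg (by omega)]
  rw [z a (a-1) (by omega), z (a+1) a (by omega)]
  simp only [le_refl, if_true, mul_zero, ite_self, add_zero]
  rw [psi, coeff_sub, sub_eq_add_neg]
  congr 1
  · split_ifs with h4
    · unfold phiU
      rw [if_pos (by omega), one_mul]
      congr 2; omega
    · have : 2*n-1-a = 0 := by omega
      rw [this]; simp
  · split_ifs with h4
    · unfold phiU
      rw [if_pos (by omega)]
      have : a - 1 + 1 = a := by omega
      rw [this]; ring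
    · have : a = 0 := by omega
      rw [this]; simp

theorem diag_L (n m j a : ℕ) (ha : a < 2*n) :
    ∑ y : Bt n, kf m a a y.1.1.val y.1.2.val * phiL n j y.1.1.val y.1.2.val
      = if m ≤ a then (-1)^a * (psi n a).coeff (2*j) else 0 := by
  rw [KM_sum n m a a ha ha ⟨a, rfl⟩ (phiL n j)]
  have z : ∀ x y, x ≤ y → phiL n j x y = 0 := by
    intro x y hxy; unfold phiL; rw [if_neg (by omega)]
  rw [z a (a+1) (by omega), z (a-1) a (by omega)]
  simp only [mul_zero, ite_self, zero_add, true_and]
  by_cases hm : m ≤ a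
  · have hm' : ¬ (a < m) := by omega
    simp only [hm', if_false, one_mul, hm, if_true]
    rw [psi, coeff_sub]
    have hL : (if 1 ≤ a then phiL n j a (a-1) else 0) = - (-1)^a * (f 1 a (2*n-a)).coeff (2*j) := by
      split_ifs with h4
      · unfold phiL
        rw [if_pos (by omega)]
        obtain ⟨b, rfl⟩ : ∃ b', a = b' + 1 := ⟨a-1, by omega⟩
        simp only [Nat.add_sub_cancel]
        rw [pow_succ]; ring
      · have : a = 0 := by omega
        rw [this]; simp
    have hU : (if a + 1 < 2*n then phiL n j (a+1) a else 0) = (-1)^a * (f 1 (a+1) (2*n-1-a)).coeff (2*j) := by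
      split_ifs with h4
      · unfold phiL
        rw [if_pos (by omega)]
        congr 3; omega
      · have : 2*n-1-a = 0 := by omega
        rw [this]; simp
    rw [hL, hU]; ring
  · have hm' : a < m := by omega
    simp [hm', hm]

end Pool.Agent.Dom84
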