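import Mathlib
import Pool.Agent.Dom84.Kast

set_option autoImplicit false

/-! Elimination: `|det KM| = |det MM|`. -/

namespace Pool.Agent.Dom84

open Matrix Polynomial

theorem pos_lt (n : ℕ) (r : Fin n ⊕ Fin n) : pos n r < 2*n := by
  rcases r with i | i
  · have := i.2; simp only [pos, Sum.elim_inl]; omega
  · have := i.2; simp only [pos, Sum.elim_inr]; omega

theorem pos_inj (n : ℕ) (r s : Fin n ⊕ Fin n) (h : pos n r = pos n s) : r = s := by
  rcases r with i | i <;> rcases s with j | j <;> simp only [pos, Sum.elim_inl, Sum.elim_inr] at h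
  · congr 1; exact Fin.ext h
  · have := i.2; have := j.2; omega
  · have := i.2; have := j.2; omega
  · congr 1; apply Fin.ext; have := i.2; have := j.2; omega

theorem pos_surj (n a : ℕ) (h : a < 2*n) : ∃ r : Fin n ⊕ Fin n, pos n r = a := by
  by_cases h1 : a < n
  · exact ⟨Sum.inl ⟨a, h1⟩, rfl⟩
  · refine ⟨Sum.inr ⟨2*n-1-a, by omega⟩, ?_⟩
    simp only [pos, Sum.elim_inr]; omega

def fW (n : ℕ) : Wo n ⊕ (Fin n ⊕ Fin n) → Wt n
  | Sum.inl x => ⟨x.1, x.2.1⟩
  | Sum.inr r => ⟨(⟨pos n r, pos_lt n r⟩, ⟨pos n r, pos_lt n r⟩), ⟨pos n r, rfl⟩⟩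

theorem fW_bij (n : ℕ) : Function.Bijective (fW n) := by
  constructor
  · intro x y h
    rcases x with x | x <;> rcases y with y | y
    · simp only [fW, Subtype.mk.injEq] at h
      congr 1; exact Subtype.ext h
    · simp only [fW, Subtype.mk.injEq] at h
      exfalso
      apply x.2.2
      rw [h]
    · simp only [fW, Subtype.mk.injEq] at h
      exfalso
      apply y.2.2
      rw [← h]
    · simp only [fW, Subtype.mk.injEq, Prod.mk.injEq, Fin.mk.injEq, and_self] at h
      congr 1
      exact pos_inj n x y h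
  · rintro ⟨⟨a, b⟩, he⟩
    by_cases hab : a = b
    · obtain ⟨r, hr⟩ := pos_surj n a.val a.2
      refine ⟨Sum.inr r, ?_⟩
      simp only [fW, Subtype.mk.injEq, Prod.mk.injEq]
      subst hab
      exact ⟨Fin.ext hr, Fin.ext hr⟩
    · exact ⟨Sum.inl ⟨(a, b), he, hab⟩, rfl⟩

theorem wo_lt {n : ℕ} (x : Wo n) (h : x.1.1 < x.1.2) : x.1.1.val + 2 ≤ x.1.2.val := by
  obtain ⟨k, hk⟩ := x.2.1
  have : x.1.1.val < x.1.2.val := h
  omega

theorem wo_gt {n : ℕ} (x : Wo n) (h : ¬ x.1.1 < x.1.2) : x.1.2.val + 2 ≤ x.1.1.val := by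
  obtain ⟨k, hk⟩ := x.2.1
  have h1 : ¬ x.1.1.val < x.1.2.val := h
  have h2 : x.1.1.val ≠ x.1.2.val := fun h => x.2.2 (Fin.ext h)
  omega

def fBo (n : ℕ) (x : Wo n) : Bt n :=
  if h : x.1.1 < x.1.2 then
    ⟨(x.1.1, ⟨x.1.2.val - 1, by omega⟩), by
      have h1 := wo_lt x h
      have h2 := x.2.1
      intro h3
      simp only at h3
      have : x.1.1.val + x.1.2.val = (x.1.1.val + (x.1.2.val - 1)) + 1 := by omega
      rw [this, Nat.even_add_one] at h2
      exact h2 h3⟩
  else
    ⟨(⟨x.1.1.val - 1, by omega⟩, x.1.2), by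
      have h1 := wo_gt x h
      have h2 := x.2.1
      intro h3
      simp only at h3
      have : x.1.1.val + x.1.2.val = ((x.1.1.val - 1) + x.1.2.val) + 1 := by omega
      rw [this, Nat.even_add_one] at h2
      exact h2 h3⟩

theorem fBo_lt {n : ℕ} (x : Wo n) (h : x.1.1 < x.1.2) :
    (fBo n x).1.1.val = x.1.1.val ∧ (fBo n x).1.2.val = x.1.2.val - 1 := by
  simp [fBo, h]

theorem fBo_gt {n : ℕ} (x : Wo n) (h : ¬ x.1.1 < x.1.2) :
    (fBo n x).1.1.val = x.1.1.val - 1 ∧ (fBo n x).1.2.val = x.1.2.val := by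
  simp [fBo, h]

def fB (n : ℕ) : Wo n ⊕ (Fin n ⊕ Fin n) → Bt n
  | Sum.inl x => fBo n x
  | Sum.inr (Sum.inl k) => ⟨(⟨2*k.val, by have := k.2; omega⟩, ⟨2*n-1, by have := k.2; omega⟩), by
      simp only
      rintro ⟨l, hl⟩; have := k.2; omega⟩
  | Sum.inr (Sum.inr k) => ⟨(⟨2*n-1, by have := k.2; omega⟩, ⟨2*k.val, by have := k.2; omega⟩), by
      simp only
      rintro ⟨l, hl⟩; have := k.2; omega⟩

theorem bt_ext {n : ℕ} (x y : Bt n) : x = y ↔ (x.1.1.val = y.1.1.val ∧ x.1.2.val = y.1.2.val) := by
  constructor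
  · rintro rfl; exact ⟨rfl, rfl⟩
  · rintro ⟨h1, h2⟩
    apply Subtype.ext
    exact Prod.ext (Fin.ext h1) (Fin.ext h2)

theorem wo_ext {n : ℕ} (x y : Wo n) : x = y ↔ (x.1.1.val = y.1.1.val ∧ x.1.2.val = y.1.2.val) := by
  constructor
  · rintro rfl; exact ⟨rfl, rfl⟩
  · rintro ⟨h1, h2⟩
    apply Subtype.ext
    exact Prod.ext (Fin.ext h1) (Fin.ext h2)

theorem fB_bij (n : ℕ) : Function.Bijective (fB n) := by
  constructor
  · intro x y h
    rw [bt_ext] at h
    rcases x with x | x | x <;> rcases y with y | y | y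
    · congr 1
      rw [wo_ext]
      simp only [fB] at h
      by_cases hx : x.1.1 < x.1.2 <;> by_cases hy : y.1.1 < y.1.2
      · rw [(fBo_lt x hx).1, (fBo_lt x hx).2, (fBo_lt y hy).1, (fBo_lt y hy).2] at h
        have := wo_lt x hx; have := wo_lt y hy
        omega
      · rw [(fBo_lt x hx).1, (fBo_lt x hx).2, (fBo_gt y hy).1, (fBo_gt y hy).2] at h
        have := wo_lt x hx; have := wo_gt y hy
        omega
      · rw [(fBo_gt x hx).1, (fBo_gt x hx).2, (fBo_lt y hy).1, (fBo_lt y hy).2] at h
        have := wo_gt x hx; have := wo_lt y hy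
        omega
      · rw [(fBo_gt x hx).1, (fBo_gt x hx).2, (fBo_gt y hy).1, (fBo_gt y hy).2] at h
        have := wo_gt x hx; have := wo_gt y hy
        omega
    · exfalso
      simp only [fB] at h
      have := x.1.1.2; have := x.1.2.2; have := y.2
      by_cases hx : x.1.1 < x.1.2
      · rw [(fBo_lt x hx).1, (fBo_lt x hx).2] at h
        have := wo_lt x hx
        omega
      · rw [(fBo_gt x hx).1, (fBo_gt x hx).2] at h
        have := wo_gt x hx
        omega
    · exfalso
      simp only [fB] at h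
      have := x.1.1.2; have := x.1.2.2; have := y.2
      by_cases hx : x.1.1 < x.1.2
      · rw [(fBo_lt x hx).1, (fBo_lt x hx).2] at h
        have := wo_lt x hx
        omega
      · rw [(fBo_gt x hx).1, (fBo_gt x hx).2] at h
        have := wo_gt x hx
        omega
    · exfalso
      simp only [fB] at h
      have := y.1.1.2; have := y.1.2.2; have := x.2
      by_cases hy : y.1.1 < y.1.2
      · rw [(fBo_lt y hy).1, (fBo_lt y hy).2] at h
        have := wo_lt y hy
        omega
      · rw [(fBo_gt y hy).1, (fBo_gt y hy).2] at h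
        have := wo_gt y hy
        omega
    · simp only [fB] at h
      congr 2
      apply Fin.ext; omega
    · exfalso
      simp only [fB] at h
      have := x.2; have := y.2
      omega
    · exfalso
      simp only [fB] at h
      have := y.1.1.2; have := y.1.2.2; have := x.2
      by_cases hy : y.1.1 < y.1.2
      · rw [(fBo_lt y hy).1, (fBo_lt y hy).2] at h
        have := wo_lt y hy
        omega
      · rw [(fBo_gt y hy).1, (fBo_gt y hy).2] at h
        have := wo_gt y hy
        omega
    · exfalso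
      simp only [fB] at h
      have := x.2; have := y.2
      omega
    · simp only [fB] at h
      congr 2
      apply Fin.ext; omega
  · intro y
    have hy := y.2
    have h1 := y.1.1.2
    have h2 := y.1.2.2
    rw [Nat.not_even_iff_odd] at hy
    obtain ⟨k, hk⟩ := hy
    rcases lt_trichotomy y.1.1.val y.1.2.val with h | h | h
    · by_cases hb : y.1.2.val = 2*n-1
      · refine ⟨Sum.inr (Sum.inl ⟨y.1.1.val / 2, by omega⟩), ?_⟩
        rw [bt_ext]
        simp only [fB]
        omega
      · have hlt : y.1.2.val + 1 < 2*n := by omega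
        refine ⟨Sum.inl ⟨(y.1.1, ⟨y.1.2.val+1, hlt⟩), ?_, ?_⟩, ?_⟩
        · simp only
          exact ⟨k+1, by omega⟩
        · intro hc
          have := congrArg Fin.val hc
          simp only at this
          omega
        · rw [bt_ext]
          simp only [fB]
          have hx : (y.1.1 : Fin (2*n)) < ⟨y.1.2.val+1, hlt⟩ := by
            rw [Fin.lt_def]; simp only; omega
          rw [(fBo_lt _ hx).1, (fBo_lt _ hx).2]
          simp
    · exfalso; omega
    · by_cases hb : y.1.1.val = 2*n-1
      · refine ⟨Sum.inr (Sum.inr ⟨y.1.2.val / 2, by omega⟩), ?_⟩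
        rw [bt_ext]
        simp only [fB]
        omega
      · have hlt : y.1.1.val + 1 < 2*n := by omega
        refine ⟨Sum.inl ⟨(⟨y.1.1.val+1, hlt⟩, y.1.2), ?_, ?_⟩, ?_⟩
        · simp only
          exact ⟨k+1, by omega⟩
        · intro hc
          have := congrArg Fin.val hc
          simp only at this
          omega
        · rw [bt_ext]
          simp only [fB]
          have hx : ¬ (⟨y.1.1.val+1, hlt⟩ : Fin (2*n)) < y.1.2 := by
            rw [Fin.lt_def]; simp only; omega
          rw [(fBo_gt _ hx).1, (fBo_gt _ hx).2]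
          simp

noncomputable def eW (n : ℕ) : Wo n ⊕ (Fin n ⊕ Fin n) ≃ Wt n := Equiv.ofBijective _ (fW_bij n)
noncomputable def eB (n : ℕ) : Wo n ⊕ (Fin n ⊕ Fin n) ≃ Bt n := Equiv.ofBijective _ (fB_bij n)

theorem det_block_one (n m : ℕ) : (((KM n m).submatrix (eW n) (eB n)).toBlocks₁₁).det = 1 := by
  apply det_unitri _ (fun x : Wo n => max x.1.1.val x.1.2.val)
  · intro x
    simp only [toBlocks₁₁, of_apply, submatrix_apply, KM, eW, eB, Equiv.ofBijective_apply, fW, fB]
    by_cases hx : x.1.1 < x.1.2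
    · have h1 := wo_lt x hx
      rw [(fBo_lt x hx).1, (fBo_lt x hx).2]
      unfold kf
      rw [if_neg (by omega), if_neg (by omega), if_pos (by omega), if_neg (by omega), if_neg (by omega)]
      norm_num
    · have h1 := wo_gt x hx
      rw [(fBo_gt x hx).1, (fBo_gt x hx).2]
      unfold kf
      rw [if_neg (by omega), if_pos (by omega), if_neg (by omega), if_neg (by omega), if_neg (by omega)]
      norm_num
  · intro x y hne
    simp only [toBlocks₁₁, of_apply, submatrix_apply, KM, eW, eB, Equiv.ofBijective_apply, fW, fB] at hne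
    by_contra hcon
    rw [not_or, wo_ext, not_lt] at hcon
    obtain ⟨hc1, hc2⟩ := hcon
    apply hne
    have e : ∀ (P Q : Prop) [Decidable P] [Decidable Q] (a b : ℤ), ¬ P → (if P then a else (0:ℤ)) = 0 := by
      intro P Q _ _ a b h; rw [if_neg h]
    unfold kf
    by_cases hx : x.1.1 < x.1.2 <;> by_cases hy : y.1.1 < y.1.2
    · have h1 := wo_lt x hx; have h2 := wo_lt y hy
      rw [(fBo_lt y hy).1, (fBo_lt y hy).2]
      rw [if_neg (by omega), if_neg (by omega), if_neg (by omega), if_neg (by omega)]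
      norm_num
    · have h1 := wo_lt x hx; have h2 := wo_gt y hy
      rw [(fBo_gt y hy).1, (fBo_gt y hy).2]
      rw [if_neg (by omega), if_neg (by omega), if_neg (by omega), if_neg (by omega)]
      norm_num
    · have h1 := wo_gt x hx; have h2 := wo_lt y hy
      rw [(fBo_lt y hy).1, (fBo_lt y hy).2]
      rw [if_neg (by omega), if_neg (by omega), if_neg (by omega), if_neg (by omega)]
      norm_num
    · have h1 := wo_gt x hx; have h2 := wo_gt y hy
      rw [(fBo_gt y hy).1, (fBo_gt y hy).2]
      rw [if_neg (by omega), if_neg (by omega), if_neg (by omega), if_neg (by omega)]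
      norm_num

/-- null vectors as a matrix -/
noncomputable def Phi (n : ℕ) : Matrix (Bt n) (Fin n ⊕ Fin n) ℤ :=
  Matrix.of fun y c => Sum.elim (fun j : Fin n => phiU n j y.1.1.val y.1.2.val)
    (fun j : Fin n => phiL n j y.1.1.val y.1.2.val) c

theorem det_Phi (n : ℕ) : (((Phi n).submatrix (eB n) id).submatrix Sum.inr id).det = 1 := by
  have h : (((Phi n).submatrix (eB n) id).submatrix Sum.inr id)
    = fromBlocks (Matrix.of fun k j : Fin n => (p 1 (2*(k:ℕ)+1)).coeff (2*(j:ℕ))) 0 0
       (Matrix.of fun k j : Fin n => (p 1 (2*(k:ℕ)+1)).coeff (2*(j:ℕ))) := by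
    ext k j
    rcases k with k | k <;> rcases j with j | j <;>
      simp only [submatrix_apply, Phi, of_apply, eB, Equiv.ofBijective_apply, fB, id, Sum.elim_inl, Sum.elim_inr,
        fromBlocks_apply₁₁, fromBlocks_apply₁₂, fromBlocks_apply₂₁, fromBlocks_apply₂₂, Matrix.zero_apply]
    · unfold phiU
      have hk := k.2
      rw [if_pos (by omega)]
      have : 2*n-(2*n-1) = 1 := by omega
      rw [this, f, p_one, mul_one]
    · unfold phiL
      have hk := k.2
      rw [if_neg (by omega)]
    · unfold phiU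
      have hk := k.2
      rw [if_neg (by omega)]
    · unfold phiL
      have hk := k.2
      rw [if_pos (by omega)]
      have : 2*n-(2*n-1) = 1 := by omega
      rw [this, f, p_one, mul_one, pow_mul]
      simp
  rw [h, det_fromBlocks_zero₂₁]
  have h2 : (Matrix.of fun k j : Fin n => (p 1 (2*(k:ℕ)+1)).coeff (2*(j:ℕ))).det = 1 := by
    rw [← det_transpose]
    apply det_unitri _ (fun j : Fin n => j.val)
    · intro i
      simp only [transpose_apply, of_apply]
      rw [p_coeff_top]; simp
    · intro i j hne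
      simp only [transpose_apply, of_apply] at hne
      by_contra hc
      rw [not_or] at hc
      apply hne
      apply p_coeff_gt
      have : (i:ℕ) ≠ j := fun h => hc.1 (Fin.ext h)
      omega
  rw [h2]; norm_num

theorem KM_Phi_off (n m : ℕ) (w : Wo n) (c : Fin n ⊕ Fin n) :
    (((KM n m).submatrix (eW n) (eB n)) * ((Phi n).submatrix (eB n) id)) (Sum.inl w) c = 0 := by
  rw [submatrix_mul_equiv]
  simp only [submatrix_apply, mul_apply, id]
  have hne : w.1.1.val ≠ w.1.2.val := fun h => w.2.2 (Fin.ext h)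
  rcases c with j | j
  · exact null_U_off n m j w.1.1.val w.1.2.val w.1.1.2 w.1.2.2 w.2.1 hne
  · exact null_L_off n m j w.1.1.val w.1.2.val w.1.1.2 w.1.2.2 w.2.1 hne

theorem KM_Phi_diag (n m : ℕ) :
    (((KM n m).submatrix (eW n) (eB n)) * ((Phi n).submatrix (eB n) id)).submatrix Sum.inr id = MM n m := by
  ext r c
  rw [submatrix_mul_equiv]
  simp only [submatrix_apply, mul_apply, id]
  rcases c with j | j
  · have := diag_U n m j (pos n r) (pos_lt n r)
    exact this
  · have := diag_L n m j (pos n r) (pos_lt n r)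
    exact this

theorem det_KM_eq (n m : ℕ) : ((KM n m).submatrix (eW n) (eB n)).det = (MM n m).det := by
  have h := det_elim ((KM n m).submatrix (eW n) (eB n)) ((Phi n).submatrix (eB n) id) (KM_Phi_off n m)
  rw [det_Phi, det_block_one, KM_Phi_diag, mul_one, one_mul] at h
  exact h

theorem abs_det_KM (n m : ℕ) {ι : Type*} [Fintype ι] [DecidableEq ι] (e1 : ι ≃ Wt n) (e2 : ι ≃ Bt n) :
    |((KM n m).submatrix e1 e2).det| = |(MM n m).det| := by
  rw [← det_KM_eq]
  have h : (KM n m).submatrix e1 e2 = ((KM n m).submatrix (eW n) (eB n)).submatrix (e1.trans (eW n).symm) (e2.trans (eB n).symm) := by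
    ext i j
    simp
  rw [h, abs_det_submatrix_equiv_equiv]

end Pool.Agent.Dom84
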