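import Mathlib

set_option autoImplicit false

/-! Signs of matchings of layered graphs. -/

namespace Pool.Agent.Dom84

theorem card_pairs {α : Type*} [DecidableEq α] (A : Finset α) (p : α → ℤ)
    (hp : ∀ x ∈ A, ∀ y ∈ A, p x = p y → x = y) :
    ((A ×ˢ A).filter (fun q => p q.1 < p q.2)).card = A.card.choose 2 := by
  have h1 : A.offDiag = ((A ×ˢ A).filter (fun q => p q.1 < p q.2)) ∪ ((A ×ˢ A).filter (fun q => p q.2 < p q.1)) := by
    ext ⟨x, y⟩
    simp only [Finset.mem_offDiag, Finset.mem_union, Finset.mem_filter, Finset.mem_product]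
    constructor
    · rintro ⟨hx, hy, hne⟩
      rcases lt_trichotomy (p x) (p y) with h | h | h
      · exact Or.inl ⟨⟨hx, hy⟩, h⟩
      · exact absurd (hp x hx y hy h) hne
      · exact Or.inr ⟨⟨hx, hy⟩, h⟩
    · rintro (⟨⟨hx, hy⟩, h⟩ | ⟨⟨hx, hy⟩, h⟩)
      · exact ⟨hx, hy, by rintro rfl; exact lt_irrefl _ h⟩
      · exact ⟨hx, hy, by rintro rfl; exact lt_irrefl _ h⟩
  have h2 : Disjoint ((A ×ˢ A).filter (fun q => p q.1 < p q.2)) ((A ×ˢ A).filter (fun q => p q.2 < p q.1)) := by
    rw [Finset.disjoint_left]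
    intro q hq hq'
    rw [Finset.mem_filter] at hq hq'
    exact lt_asymm hq.2 hq'.2
  have h3 : ((A ×ˢ A).filter (fun q => p q.2 < p q.1)).card = ((A ×ˢ A).filter (fun q => p q.1 < p q.2)).card := by
    apply Finset.card_bij (fun q _ => (q.2, q.1))
    · intro q hq
      simp only [Finset.mem_filter, Finset.mem_product] at hq ⊢
      exact ⟨⟨hq.1.2, hq.1.1⟩, hq.2⟩
    · rintro ⟨a, b⟩ _ ⟨c, d⟩ _ h
      simp only [Prod.mk.injEq] at h
      rw [h.1, h.2]
    · rintro ⟨a, b⟩ h
      simp only [Finset.mem_filter, Finset.mem_product] at h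
      refine ⟨(b, a), ?_, rfl⟩
      simp only [Finset.mem_filter, Finset.mem_product]
      exact ⟨⟨h.1.2, h.1.1⟩, h.2⟩
  have h4 := congrArg Finset.card h1
  rw [Finset.card_union_of_disjoint h2, h3, Finset.offDiag_card] at h4
  rw [Nat.choose_two_right, Nat.mul_sub_one, h4]
  omega

section
variable {W B : Type*} [Fintype W] [Fintype B] [DecidableEq W] [DecidableEq B]
  (lw pw : W → ℤ) (lb pb : B → ℤ)

/-- `σ` is a matching of the layered graph. -/
def IsM (σ : W ≃ B) : Prop := ∀ w,
  (lb (σ w) = lw w + 1 ∧ (pb (σ w) = pw w ∨ pb (σ w) = pw w - 1)) ∨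
  (lb (σ w) = lw w - 1 ∧ (pb (σ w) = pw w ∨ pb (σ w) = pw w + 1))

/-- inversions -/
noncomputable def Inv (σ : W ≃ B) : Finset (W × W) := by
  classical
  exact Finset.univ.filter (fun q : W × W => (lw q.1 < lw q.2 ∨ (lw q.1 = lw q.2 ∧ pw q.1 < pw q.2)) ∧
    (lb (σ q.2) < lb (σ q.1) ∨ (lb (σ q.2) = lb (σ q.1) ∧ pb (σ q.2) < pb (σ q.1))))

variable (hlw : ∀ w, Even (lw w)) (hlb : ∀ y, Odd (lb y))
  (hW : ∀ w w', lw w = lw w' → pw w = pw w' → w = w')
  (hB : ∀ y y', lb y = lb y' → pb y = pb y' → y = y')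

noncomputable def idxW (w : W) : ℕ := (Finset.univ.filter (fun w' => lw w' = lw w ∧ pw w' < pw w)).card

noncomputable def cW (k : ℤ) : ℕ := (Finset.univ.filter (fun w => lw w < k)).card

include hlw hlb in
theorem card_back (σ : W ≃ B) (hσ : IsM lw pw lb pb σ) (k : ℤ) (hk : Even k) :
    (Finset.univ.filter (fun w => lw w = k ∧ lb (σ w) = lw w - 1)).card = cW lb k - cW lw k := by
  have h1 : cW lb k = (Finset.univ.filter (fun w => lb (σ w) < k)).card := by
    unfold cW
    symm
    apply Finset.card_bij (fun w _ => σ w)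
    · intro w hw; simpa using hw
    · intro a _ b _ h; exact σ.injective h
    · intro y hy
      exact ⟨σ.symm y, by simpa using hy, by simp⟩
  have h2 : (Finset.univ.filter (fun w => lb (σ w) < k)) = (Finset.univ.filter (fun w => lw w < k))
      ∪ (Finset.univ.filter (fun w => lw w = k ∧ lb (σ w) = lw w - 1)) := by
    ext w
    simp only [Finset.mem_filter, Finset.mem_univ, true_and, Finset.mem_union]
    have e1 := hlw w
    have e2 := hlb (σ w)
    obtain ⟨a, ha⟩ := e1
    obtain ⟨b, hb⟩ := e2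
    obtain ⟨c, hc⟩ := hk
    rcases hσ w with h | h <;> omega
  have h3 : Disjoint (Finset.univ.filter (fun w => lw w < k)) (Finset.univ.filter (fun w => lw w = k ∧ lb (σ w) = lw w - 1)) := by
    rw [Finset.disjoint_left]
    intro w hw hw'
    simp only [Finset.mem_filter, Finset.mem_univ, true_and] at hw hw'
    omega
  rw [h1, h2, Finset.card_union_of_disjoint h3]
  unfold cW
  omega

include hlw hlb in
theorem card_fwd (σ : W ≃ B) (hσ : IsM lw pw lb pb σ) (k : ℤ) (hk : Odd k) :
    (Finset.univ.filter (fun w => lb (σ w) = k ∧ lb (σ w) = lw w + 1)).card = cW lw k - cW lb k := by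
  have h1 : cW lb k = (Finset.univ.filter (fun w => lb (σ w) < k)).card := by
    unfold cW
    symm
    apply Finset.card_bij (fun w _ => σ w)
    · intro w hw; simpa using hw
    · intro a _ b _ h; exact σ.injective h
    · intro y hy
      exact ⟨σ.symm y, by simpa using hy, by simp⟩
  have h2 : (Finset.univ.filter (fun w => lw w < k)) = (Finset.univ.filter (fun w => lb (σ w) < k))
      ∪ (Finset.univ.filter (fun w => lb (σ w) = k ∧ lb (σ w) = lw w + 1)) := by
    ext w
    simp only [Finset.mem_filter, Finset.mem_univ, true_and, Finset.mem_union]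
    have e1 := hlw w
    have e2 := hlb (σ w)
    obtain ⟨a, ha⟩ := e1
    obtain ⟨b, hb⟩ := e2
    obtain ⟨c, hc⟩ := hk
    rcases hσ w with h | h <;> omega
  have h3 : Disjoint (Finset.univ.filter (fun w => lb (σ w) < k)) (Finset.univ.filter (fun w => lb (σ w) = k ∧ lb (σ w) = lw w + 1)) := by
    rw [Finset.disjoint_left]
    intro w hw hw'
    simp only [Finset.mem_filter, Finset.mem_univ, true_and] at hw hw'
    omega
  have h4 : cW lw k = (Finset.univ.filter (fun w => lw w < k)).card := rfl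
  rw [h4, h2, Finset.card_union_of_disjoint h3, h1]
  omega

/-- the constant -/
noncomputable def cst : ℕ := (∑ k ∈ Finset.univ.image lw, (cW lb k - cW lw k).choose 2)
  + (∑ k ∈ Finset.univ.image lb, (cW lw k - cW lb k).choose 2)

include hlw hlb hW hB in
theorem card_Inv (σ : W ≃ B) (hσ : IsM lw pw lb pb σ) :
    (Inv lw pw lb pb σ).card + cst lw lb
      = (∑ w ∈ Finset.univ.filter (fun w => lb (σ w) = lw w - 1), idxW lw pw w)
       + (∑ w ∈ Finset.univ.filter (fun w => lb (σ w) = lw w + 1), idxW lb pb (σ w)) := by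
  classical
  set I1 : Finset (W × W) := Finset.univ.filter (fun q : W × W => lw q.1 = lw q.2 ∧ pw q.1 < pw q.2 ∧
    lb (σ q.1) = lw q.1 + 1 ∧ lb (σ q.2) = lw q.2 - 1) with hI1
  set I2 : Finset (W × W) := Finset.univ.filter (fun q : W × W => lb (σ q.1) = lb (σ q.2) ∧ pb (σ q.2) < pb (σ q.1) ∧
    lb (σ q.1) = lw q.1 + 1 ∧ lb (σ q.2) = lw q.2 - 1) with hI2
  set J1 : Finset (W × W) := Finset.univ.filter (fun q : W × W => lw q.1 = lw q.2 ∧ pw q.1 < pw q.2 ∧
    lb (σ q.2) = lw q.2 - 1) with hJ1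
  set J2 : Finset (W × W) := Finset.univ.filter (fun q : W × W => lb (σ q.1) = lb (σ q.2) ∧ pb (σ q.2) < pb (σ q.1) ∧
    lb (σ q.1) = lw q.1 + 1) with hJ2
  set BBs : Finset (W × W) := Finset.univ.filter (fun q : W × W => lw q.1 = lw q.2 ∧ pw q.1 < pw q.2 ∧
    lb (σ q.1) = lw q.1 - 1 ∧ lb (σ q.2) = lw q.2 - 1) with hBBs
  set FFs : Finset (W × W) := Finset.univ.filter (fun q : W × W => lb (σ q.1) = lb (σ q.2) ∧ pb (σ q.2) < pb (σ q.1) ∧
    lb (σ q.1) = lw q.1 + 1 ∧ lb (σ q.2) = lw q.2 + 1) with hFFs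
  have hI : Inv lw pw lb pb σ = I1 ∪ I2 := by
    ext q
    simp only [Inv, hI1, hI2, Finset.mem_filter, Finset.mem_univ, true_and, Finset.mem_union]
    obtain ⟨a1, ha1⟩ := hlw q.1
    obtain ⟨a2, ha2⟩ := hlw q.2
    obtain ⟨b1, hb1⟩ := hlb (σ q.1)
    obtain ⟨b2, hb2⟩ := hlb (σ q.2)
    rcases hσ q.1 with h1 | h1 <;> rcases hσ q.2 with h2 | h2 <;> omega
  have hd : Disjoint I1 I2 := by
    rw [Finset.disjoint_left]
    intro q hq hq'
    simp only [hI1, hI2, Finset.mem_filter, Finset.mem_univ, true_and] at hq hq'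
    omega
  have hcI : (Inv lw pw lb pb σ).card = I1.card + I2.card := by
    rw [hI, Finset.card_union_of_disjoint hd]
  have hc1 : J1.card = I1.card + BBs.card := by
    have : J1 = I1 ∪ BBs := by
      ext q
      simp only [hJ1, hI1, hBBs, Finset.mem_filter, Finset.mem_univ, true_and, Finset.mem_union]
      rcases hσ q.1 with h1 | h1 <;> omega
    rw [this, Finset.card_union_of_disjoint]
    rw [Finset.disjoint_left]
    intro q hq hq'
    simp only [hI1, hBBs, Finset.mem_filter, Finset.mem_univ, true_and] at hq hq'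
    omega
  have hc2 : J2.card = I2.card + FFs.card := by
    have : J2 = I2 ∪ FFs := by
      ext q
      simp only [hJ2, hI2, hFFs, Finset.mem_filter, Finset.mem_univ, true_and, Finset.mem_union]
      rcases hσ q.2 with h1 | h1 <;> omega
    rw [this, Finset.card_union_of_disjoint]
    rw [Finset.disjoint_left]
    intro q hq hq'
    simp only [hI2, hFFs, Finset.mem_filter, Finset.mem_univ, true_and] at hq hq'
    omega
  have hs1 : J1.card = ∑ w ∈ Finset.univ.filter (fun w => lb (σ w) = lw w - 1), idxW lw pw w := by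
    rw [Finset.card_eq_sum_card_fiberwise (f := fun q : W × W => q.2)
      (t := Finset.univ.filter (fun w => lb (σ w) = lw w - 1))]
    · apply Finset.sum_congr rfl
      intro w hw
      simp only [Finset.mem_filter, Finset.mem_univ, true_and] at hw
      unfold idxW
      apply Finset.card_bij (fun q _ => q.1)
      · intro q hq
        simp only [hJ1, Finset.mem_filter, Finset.mem_univ, true_and] at hq ⊢
        obtain ⟨⟨h1, h2, h3⟩, h4⟩ := hq
        rw [← h4]; exact ⟨h1, h2⟩
      · rintro ⟨a, b⟩ ha ⟨c, d⟩ hc h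
        simp only [hJ1, Finset.mem_filter, Finset.mem_univ, true_and] at ha hc h
        rw [h, ha.2, hc.2]
      · intro b hb
        simp only [Finset.mem_filter, Finset.mem_univ, true_and] at hb
        refine ⟨(b, w), ?_, rfl⟩
        simp only [hJ1, Finset.mem_filter, Finset.mem_univ, true_and]
        exact ⟨⟨hb.1, hb.2, hw⟩, trivial⟩
    · intro q hq
      simp only [hJ1, Finset.coe_filter, Finset.mem_univ, true_and, Set.mem_setOf_eq] at hq ⊢
      exact hq.2.2
  have hs2 : J2.card = ∑ w ∈ Finset.univ.filter (fun w => lb (σ w) = lw w + 1), idxW lb pb (σ w) := by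
    rw [Finset.card_eq_sum_card_fiberwise (f := fun q : W × W => q.1)
      (t := Finset.univ.filter (fun w => lb (σ w) = lw w + 1))]
    · apply Finset.sum_congr rfl
      intro w hw
      simp only [Finset.mem_filter, Finset.mem_univ, true_and] at hw
      unfold idxW
      apply Finset.card_bij (fun q _ => σ q.2)
      · intro q hq
        simp only [hJ2, Finset.mem_filter, Finset.mem_univ, true_and] at hq ⊢
        obtain ⟨⟨h1, h2, h3⟩, h4⟩ := hq
        rw [← h4]; exact ⟨h1.symm, h2⟩
      · rintro ⟨a, b⟩ ha ⟨c, d⟩ hc h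
        simp only [hJ2, Finset.mem_filter, Finset.mem_univ, true_and] at ha hc h
        rw [ha.2, hc.2, σ.injective h]
      · intro b hb
        simp only [Finset.mem_filter, Finset.mem_univ, true_and] at hb
        refine ⟨(w, σ.symm b), ?_, by simp⟩
        simp only [hJ2, Finset.mem_filter, Finset.mem_univ, true_and, Equiv.apply_symm_apply]
        exact ⟨⟨hb.1.symm, hb.2, hw⟩, trivial⟩
    · intro q hq
      simp only [hJ2, Finset.coe_filter, Finset.mem_univ, true_and, Set.mem_setOf_eq] at hq ⊢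
      exact hq.2.2
  have hb1 : BBs.card = ∑ k ∈ Finset.univ.image lw, (cW lb k - cW lw k).choose 2 := by
    rw [Finset.card_eq_sum_card_fiberwise (f := fun q : W × W => lw q.1) (t := Finset.univ.image lw)]
    · apply Finset.sum_congr rfl
      intro k hk
      rw [Finset.mem_image] at hk
      obtain ⟨w0, _, hw0⟩ := hk
      have hk : Even k := by rw [← hw0]; exact hlw w0
      rw [← card_back lw pw lb pb hlw hlb σ hσ k hk]
      rw [← card_pairs _ pw]
      · congr 1
        ext q
        simp only [hBBs, Finset.mem_filter, Finset.mem_univ, true_and, Finset.mem_product]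
        constructor
        · rintro ⟨⟨h1, h2, h3, h4⟩, h5⟩
          exact ⟨⟨⟨h5, h3⟩, ⟨by rw [← h1]; exact h5, h4⟩⟩, h2⟩
        · rintro ⟨⟨⟨h1, h2⟩, ⟨h3, h4⟩⟩, h5⟩
          exact ⟨⟨by rw [h1, h3], h5, h2, h4⟩, h1⟩
      · intro x hx y hy h
        simp only [Finset.mem_filter, Finset.mem_univ, true_and] at hx hy
        exact hW x y (by rw [hx.1, hy.1]) h
    · intro q _
      simp
  have hb2 : FFs.card = ∑ k ∈ Finset.univ.image lb, (cW lw k - cW lb k).choose 2 := by
    rw [Finset.card_eq_sum_card_fiberwise (f := fun q : W × W => lb (σ q.1)) (t := Finset.univ.image lb)]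
    · apply Finset.sum_congr rfl
      intro k hk
      rw [Finset.mem_image] at hk
      obtain ⟨w0, _, hw0⟩ := hk
      have hk : Odd k := by rw [← hw0]; exact hlb w0
      rw [← card_fwd lw pw lb pb hlw hlb σ hσ k hk]
      rw [← card_pairs _ (fun w => - pb (σ w))]
      · congr 1
        ext q
        simp only [hFFs, Finset.mem_filter, Finset.mem_univ, true_and, Finset.mem_product, neg_lt_neg_iff]
        constructor
        · rintro ⟨⟨h1, h2, h3, h4⟩, h5⟩
          exact ⟨⟨⟨h5, h3⟩, ⟨by rw [← h1]; exact h5, h4⟩⟩, h2⟩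
        · rintro ⟨⟨⟨h1, h2⟩, ⟨h3, h4⟩⟩, h5⟩
          exact ⟨⟨by rw [h1, h3], h5, h2, h4⟩, h1⟩
      · intro x hx y hy h
        simp only [Finset.mem_filter, Finset.mem_univ, true_and, neg_inj] at hx hy h
        exact σ.injective (hB _ _ (by rw [hx.1, hy.1]) h)
    · intro q _
      simp
  rw [← hs1, ← hs2, hcI, hc1, hc2]
  unfold cst
  rw [← hb1, ← hb2]
  ring

end

end Pool.Agent.Dom84
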