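import Mathlib
import Pool.Agent.Dom84.Sign
import Pool.Agent.Dom84.Elim

set_option autoImplicit false

/-! Number of matchings = |det|. -/

namespace Pool.Agent.Dom84

open Matrix

section
variable {W B : Type*} [Fintype W] [Fintype B] [DecidableEq W] [DecidableEq B]
  (lw pw : W → ℤ) (lb pb : B → ℤ)

theorem sign_inv {N : ℕ} (e1 : Fin N ≃ W) (e2 : Fin N ≃ B)
    (h1 : ∀ i j, i < j ↔ (lw (e1 i) < lw (e1 j) ∨ (lw (e1 i) = lw (e1 j) ∧ pw (e1 i) < pw (e1 j))))
    (h2 : ∀ i j, i < j ↔ (lb (e2 i) < lb (e2 j) ∨ (lb (e2 i) = lb (e2 j) ∧ pb (e2 i) < pb (e2 j))))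
    (σ : W ≃ B) :
    ((Equiv.Perm.sign (Equiv.equivCongr e1.symm e2.symm σ) : ℤˣ) : ℤ) = (-1)^(Inv lw pw lb pb σ).card := by
  classical
  set ρ : Equiv.Perm (Fin N) := Equiv.equivCongr e1.symm e2.symm σ with hρ
  have hρa : ∀ i, e2 (ρ i) = σ (e1 i) := by
    intro i; simp [hρ, Equiv.equivCongr]
  rw [Equiv.Perm.sign_eq_prod_prod_Ioi]
  have hA : ∏ i, ∏ j ∈ Finset.Ioi i, (if ρ i < ρ j then (1:ℤˣ) else -1)
      = ∏ q : Fin N × Fin N, (if q.1 < q.2 ∧ ρ q.2 < ρ q.1 then (-1:ℤˣ) else 1) := by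
    rw [Fintype.prod_prod_type]
    apply Finset.prod_congr rfl
    intro i _
    have : Finset.Ioi i = Finset.univ.filter (fun j => i < j) := by
      ext j; simp
    rw [this, Finset.prod_filter]
    apply Finset.prod_congr rfl
    intro j _
    by_cases hij : i < j
    · simp only [hij, if_true, true_and]
      have hne : ρ i ≠ ρ j := fun h => (ne_of_lt hij) (ρ.injective h)
      by_cases h : ρ i < ρ j
      · rw [if_pos h, if_neg (not_lt.2 h.le)]
      · rw [if_neg h, if_pos (lt_of_le_of_ne (not_lt.1 h) hne.symm)]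
    · simp [hij]
  rw [hA, Finset.prod_ite, Finset.prod_const, Finset.prod_const_one, mul_one]
  push_cast
  congr 1
  apply Finset.card_bij (fun q _ => (e1 q.1, e1 q.2))
  · intro q hq
    simp only [Finset.mem_filter, Finset.mem_univ, true_and] at hq
    simp only [Inv, Finset.mem_filter, Finset.mem_univ, true_and]
    refine ⟨(h1 _ _).1 hq.1, ?_⟩
    have := (h2 _ _).1 hq.2
    rw [hρa, hρa] at this
    exact this
  · rintro ⟨a, b⟩ _ ⟨c, d⟩ _ h
    simp only [Prod.mk.injEq, EmbeddingLike.apply_eq_iff_eq] at h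
    rw [h.1, h.2]
  · rintro ⟨a, b⟩ hab
    simp only [Inv, Finset.mem_filter, Finset.mem_univ, true_and] at hab
    refine ⟨(e1.symm a, e1.symm b), ?_, by simp⟩
    simp only [Finset.mem_filter, Finset.mem_univ, true_and]
    refine ⟨(h1 _ _).2 (by simpa using hab.1), (h2 _ _).2 ?_⟩
    rw [hρa, hρa]
    simpa using hab.2

theorem count_eq (K : Matrix W B ℤ) {N : ℕ} (e1 : Fin N ≃ W) (e2 : Fin N ≃ B)
    (h1 : ∀ i j, i < j ↔ (lw (e1 i) < lw (e1 j) ∨ (lw (e1 i) = lw (e1 j) ∧ pw (e1 i) < pw (e1 j))))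
    (h2 : ∀ i j, i < j ↔ (lb (e2 i) < lb (e2 j) ∨ (lb (e2 i) = lb (e2 j) ∧ pb (e2 i) < pb (e2 j))))
    (c : ℤ) (hc : |c| = 1)
    (hK : ∀ σ : W ≃ B, (∀ w, K w (σ w) ≠ 0) → (-1)^(Inv lw pw lb pb σ).card * ∏ w, K w (σ w) = c) :
    |(K.submatrix e1 e2).det| = (Nat.card {σ : W ≃ B // ∀ w, K w (σ w) ≠ 0} : ℤ) := by
  classical
  have hdet : (K.submatrix e1 e2).det = ∑ σ : W ≃ B, (-1)^(Inv lw pw lb pb σ).card * ∏ w, K w (σ w) := by
    rw [← det_transpose, det_apply']
    symm
    apply Fintype.sum_equiv (Equiv.equivCongr e1.symm e2.symm)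
    intro σ
    rw [← sign_inv lw pw lb pb e1 e2 h1 h2 σ]
    congr 1
    rw [← Equiv.prod_comp e1]
    apply Finset.prod_congr rfl
    intro i _
    simp [Equiv.equivCongr]
  have hsum : ∑ σ : W ≃ B, (-1)^(Inv lw pw lb pb σ).card * ∏ w, K w (σ w)
      = ∑ σ : W ≃ B, if (∀ w, K w (σ w) ≠ 0) then c else 0 := by
    apply Finset.sum_congr rfl
    intro σ _
    split_ifs with h
    · exact hK σ h
    · push Not at h
      obtain ⟨w, hw⟩ := h
      rw [Finset.prod_eq_zero (Finset.mem_univ w) hw, mul_zero]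
  rw [hdet, hsum, ← Finset.sum_filter, Finset.sum_const, nsmul_eq_mul, abs_mul, hc, mul_one]
  rw [Nat.card_eq_fintype_card, Fintype.card_subtype]
  simp

end

/-! ### the square -/

def lW (n : ℕ) (w : Wt n) : ℤ := (w.1.2.val : ℤ) - w.1.1.val
def pW (n : ℕ) (w : Wt n) : ℤ := (w.1.1.val : ℤ)
def lB (n : ℕ) (w : Bt n) : ℤ := (w.1.2.val : ℤ) - w.1.1.val
def pB (n : ℕ) (w : Bt n) : ℤ := (w.1.1.val : ℤ)

theorem lW_even (n : ℕ) (w : Wt n) : Even (lW n w) := by
  obtain ⟨k, hk⟩ := w.2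
  exact ⟨(k:ℤ) - w.1.1.val, by unfold lW; omega⟩

theorem lB_odd (n : ℕ) (w : Bt n) : Odd (lB n w) := by
  have h := w.2
  rw [Nat.not_even_iff_odd] at h
  obtain ⟨k, hk⟩ := h
  exact ⟨(k:ℤ) - w.1.1.val, by unfold lB; omega⟩

theorem W_inj (n : ℕ) (w w' : Wt n) (h1 : lW n w = lW n w') (h2 : pW n w = pW n w') : w = w' := by
  unfold lW at h1; unfold pW at h2
  apply Subtype.ext
  exact Prod.ext (Fin.ext (by omega)) (Fin.ext (by omega))

theorem B_inj (n : ℕ) (w w' : Bt n) (h1 : lB n w = lB n w') (h2 : pB n w = pB n w') : w = w' := by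
  unfold lB at h1; unfold pB at h2
  apply Subtype.ext
  exact Prod.ext (Fin.ext (by omega)) (Fin.ext (by omega))

theorem idx_W (n : ℕ) (w : Wt n) : idxW (lW n) (pW n) w = min w.1.1.val w.1.2.val := by
  unfold idxW
  rw [← Finset.card_range (min w.1.1.val w.1.2.val)]
  obtain ⟨k, hk⟩ := w.2
  have hb1 := w.1.1.2
  have hb2 := w.1.2.2
  apply Finset.card_bij (fun w' _ => min w'.1.1.val w'.1.2.val)
  · intro w' hw'
    simp only [Finset.mem_filter, Finset.mem_univ, true_and, lW, pW] at hw'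
    rw [Finset.mem_range]
    omega
  · intro x hx y hy h
    simp only [Finset.mem_filter, Finset.mem_univ, true_and, lW, pW] at hx hy
    apply W_inj n x y
    · unfold lW; omega
    · unfold pW; omega
  · intro i hi
    rw [Finset.mem_range] at hi
    obtain ⟨d, hd⟩ : ∃ d, d = min w.1.1.val w.1.2.val - i := ⟨_, rfl⟩
    refine ⟨⟨(⟨w.1.1.val - d, by omega⟩, ⟨w.1.2.val - d, by omega⟩), ⟨k - d, by simp only; omega⟩⟩, ?_, ?_⟩
    · simp only [Finset.mem_filter, Finset.mem_univ, true_and, lW, pW]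
      omega
    · simp only
      omega

theorem idx_B (n : ℕ) (w : Bt n) : idxW (lB n) (pB n) w = min w.1.1.val w.1.2.val := by
  unfold idxW
  rw [← Finset.card_range (min w.1.1.val w.1.2.val)]
  have hw := w.2
  rw [Nat.not_even_iff_odd] at hw
  obtain ⟨k, hk⟩ := hw
  have hb1 := w.1.1.2
  have hb2 := w.1.2.2
  apply Finset.card_bij (fun w' _ => min w'.1.1.val w'.1.2.val)
  · intro w' hw'
    simp only [Finset.mem_filter, Finset.mem_univ, true_and, lB, pB] at hw'
    rw [Finset.mem_range]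
    omega
  · intro x hx y hy h
    simp only [Finset.mem_filter, Finset.mem_univ, true_and, lB, pB] at hx hy
    apply B_inj n x y
    · unfold lB; omega
    · unfold pB; omega
  · intro i hi
    rw [Finset.mem_range] at hi
    obtain ⟨d, hd⟩ : ∃ d, d = min w.1.1.val w.1.2.val - i := ⟨_, rfl⟩
    refine ⟨⟨(⟨w.1.1.val - d, by omega⟩, ⟨w.1.2.val - d, by omega⟩), by
      rw [Nat.not_even_iff_odd]; exact ⟨k - d, by simp only; omega⟩⟩, ?_, ?_⟩
    · simp only [Finset.mem_filter, Finset.mem_univ, true_and, lB, pB]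
      omega
    · simp only
      omega

/-- adjacency with the removed edges -/
def Adj (m a b a' b' : ℕ) : Prop :=
  (a' = a ∧ b' = b + 1) ∨ (a = a' + 1 ∧ b' = b) ∨
  (((a' = a ∧ b = b' + 1) ∨ (a' = a + 1 ∧ b' = b)) ∧ ¬ (a = b ∧ a < m))

theorem kf_ne (m a b a' b' : ℕ) : kf m a b a' b' ≠ 0 ↔ Adj m a b a' b' := by
  unfold kf Adj
  by_cases h1 : a' = a ∧ b' = b + 1
  · have h2 : ¬ (a = a' + 1 ∧ b' = b) := by omega
    have h3 : ¬ (a' = a ∧ b = b' + 1) := by omega
    have h4 : ¬ (a' = a + 1 ∧ b' = b) := by omega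
    rw [if_pos h1, if_neg h2, if_neg h3, if_neg h4]
    simp only [h1, true_or, iff_true, and_self]
    split_ifs <;> norm_num
  · by_cases h2 : a = a' + 1 ∧ b' = b
    · have h3 : ¬ (a' = a ∧ b = b' + 1) := by omega
      have h4 : ¬ (a' = a + 1 ∧ b' = b) := by omega
      rw [if_neg h1, if_pos h2, if_neg h3, if_neg h4]
      have : (a = a' + 1 ∧ b' = b) := h2
      simp only [this, and_self, true_or, or_true, iff_true]
      split_ifs <;> norm_num
    · by_cases h3 : a' = a ∧ b = b' + 1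
      · have h4 : ¬ (a' = a + 1 ∧ b' = b) := by omega
        rw [if_neg h1, if_neg h2, if_pos h3, if_neg h4]
        by_cases h5 : a = b ∧ a < m
        · rw [if_pos h5]
          simp only [zero_add, add_zero, ne_eq, not_true_eq_false, false_iff]
          rintro (h | h | h)
          · exact h1 h
          · exact h2 h
          · exact h.2 h5
        · rw [if_neg h5]
          simp only [zero_add, add_zero, ne_eq, one_ne_zero, not_false_eq_true, true_iff]
          exact Or.inr (Or.inr ⟨Or.inl h3, h5⟩)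
      · by_cases h4 : a' = a + 1 ∧ b' = b
        · rw [if_neg h1, if_neg h2, if_neg h3, if_pos h4]
          by_cases h5 : a = b ∧ a < m
          · rw [if_pos h5]
            simp only [zero_add, ne_eq, not_true_eq_false, false_iff]
            rintro (h | h | h)
            · exact h1 h
            · exact h2 h
            · exact h.2 h5
          · rw [if_neg h5]
            simp only [zero_add, ne_eq, one_ne_zero, not_false_eq_true, true_iff]
            exact Or.inr (Or.inr ⟨Or.inr h4, h5⟩)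
        · rw [if_neg h1, if_neg h2, if_neg h3, if_neg h4]
          simp only [add_zero, ne_eq, not_true_eq_false, false_iff]
          rintro (h | h | h)
          · exact h1 h
          · exact h2 h
          · rcases h.1 with h | h
            · exact h3 h
            · exact h4 h

/-- value of a nonzero weight -/
theorem kf_val (m a b a' b' : ℕ) (h : Adj m a b a' b') :
    kf m a b a' b' = if (b':ℤ) - a' = (b:ℤ) - a + 1 then (-1)^(min a b + min a' b') else 1 := by
  unfold kf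
  rcases h with h | h | h
  · have h2 : ¬ (a = a' + 1 ∧ b' = b) := by omega
    have h3 : ¬ (a' = a ∧ b = b' + 1) := by omega
    have h4 : ¬ (a' = a + 1 ∧ b' = b) := by omega
    have hf : (b':ℤ) - a' = (b:ℤ) - a + 1 := by omega
    rw [if_pos h, if_neg h2, if_neg h3, if_neg h4, if_pos hf]
    by_cases hab : a ≤ b
    · have e : min a b + min a' b' = 2 * a := by omega
      rw [if_pos hab, e, pow_mul]; norm_num
    · have e : min a b + min a' b' = 2 * b + 1 := by omega
      rw [if_neg hab, e, pow_succ, pow_mul]; norm_num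
  · have h1 : ¬ (a' = a ∧ b' = b + 1) := by omega
    have h3 : ¬ (a' = a ∧ b = b' + 1) := by omega
    have h4 : ¬ (a' = a + 1 ∧ b' = b) := by omega
    have hf : (b':ℤ) - a' = (b:ℤ) - a + 1 := by omega
    rw [if_neg h1, if_pos h, if_neg h3, if_neg h4, if_pos hf]
    by_cases hab : a ≤ b
    · have e : min a b + min a' b' = 2 * a' + 1 := by omega
      rw [if_pos hab, e, pow_succ, pow_mul]; norm_num
    · have e : min a b + min a' b' = 2 * b := by omega
      rw [if_neg hab, e, pow_mul]; norm_num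
  · have h1 : ¬ (a' = a ∧ b' = b + 1) := by omega
    have h2 : ¬ (a = a' + 1 ∧ b' = b) := by omega
    have hf : ¬ ((b':ℤ) - a' = (b:ℤ) - a + 1) := by omega
    rw [if_neg h1, if_neg h2, if_neg h.2, if_neg hf]
    rcases h.1 with h3 | h3
    · have h4 : ¬ (a' = a + 1 ∧ b' = b) := by omega
      rw [if_pos h3, if_neg h4]; norm_num
    · have h4 : ¬ (a' = a ∧ b = b' + 1) := by omega
      rw [if_neg h4, if_pos h3]; norm_num

theorem KM_isM (n m : ℕ) (σ : Wt n ≃ Bt n) (h : ∀ w, KM n m w (σ w) ≠ 0) :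
    IsM (lW n) (pW n) (lB n) (pB n) σ := by
  intro w
  have h1 := (kf_ne _ _ _ _ _).1 (h w)
  unfold lW pW lB pB
  unfold Adj at h1
  omega

theorem KM_sign (n m : ℕ) (σ : Wt n ≃ Bt n) (h : ∀ w, KM n m w (σ w) ≠ 0) :
    (-1 : ℤ)^(Inv (lW n) (pW n) (lB n) (pB n) σ).card * ∏ w, KM n m w (σ w)
      = (-1)^(cst (lW n) (lB n) + ∑ w : Wt n, min w.1.1.val w.1.2.val) := by
  have hM := KM_isM n m σ h
  have hI := card_Inv (lW n) (pW n) (lB n) (pB n) (lW_even n) (lB_odd n) (W_inj n) (B_inj n) σ hM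
  simp only [idx_W, idx_B] at hI
  have hprod : ∏ w, KM n m w (σ w) = (-1 : ℤ)^(∑ w ∈ Finset.univ.filter (fun w => lB n (σ w) = lW n w + 1),
      (min w.1.1.val w.1.2.val + min (σ w).1.1.val (σ w).1.2.val)) := by
    rw [← Finset.prod_pow_eq_pow_sum, Finset.prod_filter]
    apply Finset.prod_congr rfl
    intro w _
    have := kf_val m _ _ _ _ ((kf_ne _ _ _ _ _).1 (h w))
    exact this
  have hsplit : ∑ w : Wt n, min w.1.1.val w.1.2.val
      = (∑ w ∈ Finset.univ.filter (fun w => lB n (σ w) = lW n w - 1), min w.1.1.val w.1.2.val)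
       + (∑ w ∈ Finset.univ.filter (fun w => lB n (σ w) = lW n w + 1), min w.1.1.val w.1.2.val) := by
    rw [← Finset.sum_filter_add_sum_filter_not Finset.univ (fun w => lB n (σ w) = lW n w - 1)]
    congr 1
    apply Finset.sum_congr _ (fun _ _ => rfl)
    ext w
    simp only [Finset.mem_filter, Finset.mem_univ, true_and]
    rcases hM w with h | h <;> omega
  rw [hprod, hsplit, Finset.sum_add_distrib]
  -- parity bookkeeping
  generalize (Inv (lW n) (pW n) (lB n) (pB n) σ).card = I at *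
  generalize cst (lW n) (lB n) = c at *
  generalize (∑ w ∈ Finset.univ.filter (fun w => lB n (σ w) = lW n w - 1), min w.1.1.val w.1.2.val) = x at *
  generalize (∑ w ∈ Finset.univ.filter (fun w => lB n (σ w) = lW n w + 1), min w.1.1.val w.1.2.val) = y at *
  generalize (∑ w ∈ Finset.univ.filter (fun w => lB n (σ w) = lW n w + 1), min (σ w).1.1.val (σ w).1.2.val) = z at *
  rw [← pow_add]
  have hp : ∀ u v : ℕ, Even (u + v) → (-1 : ℤ)^u = (-1)^v := by
    intro u v huv
    have h1 : (-1 : ℤ)^u * (-1)^v = 1 := by rw [← pow_add]; exact huv.neg_one_pow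
    have h2 : (-1 : ℤ)^v * (-1)^v = 1 := by rw [← mul_pow]; simp
    calc (-1 : ℤ)^u = (-1 : ℤ)^u * ((-1)^v * (-1)^v) := by rw [h2, mul_one]
      _ = ((-1 : ℤ)^u * (-1)^v) * (-1)^v := by ring
      _ = (-1)^v := by rw [h1, one_mul]
  apply hp
  exact ⟨I + c + y, by omega⟩

/-- key sets of the linear orders -/
theorem exists_enum {α : Type*} [Fintype α] (l p : α → ℤ) (hinj : ∀ x y, l x = l y → p x = p y → x = y)
    (N : ℕ) (hN : Fintype.card α = N) :
    ∃ e : Fin N ≃ α, ∀ i j, i < j ↔ (l (e i) < l (e j) ∨ (l (e i) = l (e j) ∧ p (e i) < p (e j))) := by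
  classical
  let key : α → ℤ ×ₗ ℤ := fun x => toLex (l x, p x)
  have hk : Function.Injective key := by
    intro x y h
    have h1 : (l x, p x) = (l y, p y) := toLex.injective h
    rw [Prod.mk.injEq] at h1
    exact hinj x y h1.1 h1.2
  let _ : LinearOrder α := LinearOrder.lift' key hk
  let e := Fintype.orderIsoFinOfCardEq α hN
  refine ⟨e.toEquiv, ?_⟩
  intro i j
  have h1 : i < j ↔ e i < e j := (e.lt_iff_lt).symm
  rw [h1]
  have h2 : e i < e j ↔ key (e i) < key (e j) := Iff.rfl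
  rw [h2, Prod.Lex.lt_iff]
  rfl

theorem card_Wt_eq (n : ℕ) : Fintype.card (Wt n) = Fintype.card (Bt n) :=
  Fintype.card_congr ((eW n).symm.trans (eB n))

/-- The number of matchings is `|det MM|`. -/
theorem count_matchings (n m : ℕ) :
    (Nat.card {σ : Wt n ≃ Bt n // ∀ w : Wt n, Adj m w.1.1.val w.1.2.val (σ w).1.1.val (σ w).1.2.val} : ℤ)
      = |(MM n m).det| := by
  obtain ⟨e1, h1⟩ := exists_enum (lW n) (pW n) (W_inj n) _ (card_Wt_eq n)
  obtain ⟨e2, h2⟩ := exists_enum (lB n) (pB n) (B_inj n) _ rfl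
  have := count_eq (lW n) (pW n) (lB n) (pB n) (KM n m) e1 e2 h1 h2
    ((-1)^(cst (lW n) (lB n) + ∑ w : Wt n, min w.1.1.val w.1.2.val)) (by rw [abs_pow]; simp)
    (KM_sign n m)
  rw [abs_det_KM] at this
  rw [this]
  congr 1
  apply Nat.card_congr
  apply Equiv.subtypeEquivRight
  intro σ
  constructor
  · intro h w; exact (kf_ne _ _ _ _ _).2 (h w)
  · intro h w; exact (kf_ne _ _ _ _ _).1 (h w)

end Pool.Agent.Dom84
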