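import Mathlib
import Pool.Agent.Dom84.Count

set_option autoImplicit false

/-! Tilings of the intruded square and matchings. -/

namespace Pool.Agent.Dom84

/-- the region -/
def RR (n m : ℕ) : Set (ℕ × ℕ) := {p : ℕ × ℕ | p.1 < 2 * n ∧ p.2 < 2 * n ∧
  ¬ ∃ i : ℕ, i < m ∧ p.1 = i ∧ (p.2 = i ∨ p.2 = i + 1)}

/-- adjacency of cells -/
def CAdj (p q : ℕ × ℕ) : Prop := (p.1 = q.1 ∧ (p.2 + 1 = q.2 ∨ q.2 + 1 = p.2)) ∨
  (p.2 = q.2 ∧ (p.1 + 1 = q.1 ∨ q.1 + 1 = p.1))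

theorem CAdj.parity {p q : ℕ × ℕ} (h : CAdj p q) : Even (p.1 + p.2) ↔ ¬ Even (q.1 + q.2) := by
  unfold CAdj at h
  rw [Nat.not_even_iff_odd]
  constructor
  · rintro ⟨k, hk⟩
    rcases h with ⟨h1, h2 | h2⟩ | ⟨h1, h2 | h2⟩
    · exact ⟨k, by omega⟩
    · exact ⟨k-1, by omega⟩
    · exact ⟨k, by omega⟩
    · exact ⟨k-1, by omega⟩
  · rintro ⟨k, hk⟩
    rcases h with ⟨h1, h2 | h2⟩ | ⟨h1, h2 | h2⟩
    · exact ⟨k, by omega⟩
    · exact ⟨k+1, by omega⟩
    · exact ⟨k, by omega⟩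
    · exact ⟨k+1, by omega⟩

/-- tilings -/
abbrev Til (n m : ℕ) := {f : RR n m → RR n m // ∀ x, f (f x) = x ∧ CAdj x.1 (f x).1}

abbrev Mat (n m : ℕ) := {σ : Wt n ≃ Bt n // ∀ w : Wt n, Adj m w.1.1.val w.1.2.val (σ w).1.1.val (σ w).1.2.val}

def cW' {n : ℕ} (w : Wt n) : ℕ × ℕ := (w.1.1.val, w.1.2.val)
def cB' {n : ℕ} (w : Bt n) : ℕ × ℕ := (w.1.1.val, w.1.2.val)

theorem cW'_inj {n : ℕ} (x y : Wt n) (h : cW' x = cW' y) : x = y := by
  unfold cW' at h
  rw [Prod.mk.injEq] at h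
  exact Subtype.ext (Prod.ext (Fin.ext h.1) (Fin.ext h.2))

theorem cB'_inj {n : ℕ} (x y : Bt n) (h : cB' x = cB' y) : x = y := by
  unfold cB' at h
  rw [Prod.mk.injEq] at h
  exact Subtype.ext (Prod.ext (Fin.ext h.1) (Fin.ext h.2))

theorem not_RR_white {n m : ℕ} (w : Wt n) (h : cW' w ∉ RR n m) : w.1.1.val < m ∧ w.1.2.val = w.1.1.val := by
  unfold RR cW' at h
  simp only [Set.mem_setOf_eq, not_and, not_not] at h
  obtain ⟨i, hi, h1, h2⟩ := h w.1.1.2 w.1.2.2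
  obtain ⟨k, hk⟩ := w.2
  omega

theorem not_RR_black {n m : ℕ} (w : Bt n) (h : cB' w ∉ RR n m) : w.1.1.val < m ∧ w.1.2.val = w.1.1.val + 1 := by
  unfold RR cB' at h
  simp only [Set.mem_setOf_eq, not_and, not_not] at h
  obtain ⟨i, hi, h1, h2⟩ := h w.1.1.2 w.1.2.2
  have := w.2
  rw [Nat.not_even_iff_odd] at this
  obtain ⟨k, hk⟩ := this
  omega

theorem RR_diag {n m i : ℕ} (hi : i < m) : (i, i) ∉ RR n m := by
  intro h; exact h.2.2 ⟨i, hi, rfl, Or.inl rfl⟩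

theorem RR_diag' {n m i : ℕ} (hi : i < m) : (i, i+1) ∉ RR n m := by
  intro h; exact h.2.2 ⟨i, hi, rfl, Or.inr rfl⟩

open Classical in
noncomputable def toB {n m : ℕ} (hm : m < 2*n) (f : Til n m) (w : Wt n) : Bt n :=
  if h : cW' w ∈ RR n m then
    ⟨(⟨(f.1 ⟨cW' w, h⟩).1.1, (f.1 ⟨cW' w, h⟩).2.1⟩, ⟨(f.1 ⟨cW' w, h⟩).1.2, (f.1 ⟨cW' w, h⟩).2.2.1⟩),
      ((f.2 ⟨cW' w, h⟩).2.parity).1 w.2⟩
  else ⟨(w.1.1, ⟨w.1.1.val + 1, by have := (not_RR_white w h).1; omega⟩), by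
    simp only
    rw [← add_assoc, Nat.even_add_one, not_not]; exact ⟨_, rfl⟩⟩

theorem toB_mem {n m : ℕ} (hm : m < 2*n) (f : Til n m) (w : Wt n) (h : cW' w ∈ RR n m) :
    cB' (toB hm f w) = (f.1 ⟨cW' w, h⟩).1 := by
  unfold toB cB'
  rw [dif_pos h]

theorem toB_not {n m : ℕ} (hm : m < 2*n) (f : Til n m) (w : Wt n) (h : cW' w ∉ RR n m) :
    cB' (toB hm f w) = (w.1.1.val, w.1.1.val+1) := by
  unfold toB cB'
  rw [dif_neg h]

theorem toB_inj {n m : ℕ} (hm : m < 2*n) (f : Til n m) : Function.Injective (toB hm f) := by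
  intro w w' hww
  have hww' := congrArg cB' hww
  by_cases h : cW' w ∈ RR n m <;> by_cases h' : cW' w' ∈ RR n m
  · rw [toB_mem hm f w h, toB_mem hm f w' h'] at hww'
    have h1 : f.1 ⟨cW' w, h⟩ = f.1 ⟨cW' w', h'⟩ := Subtype.ext hww'
    have h2 := congrArg f.1 h1
    rw [(f.2 _).1, (f.2 _).1] at h2
    apply cW'_inj
    exact congrArg Subtype.val h2
  · exfalso
    rw [toB_mem hm f w h, toB_not hm f w' h'] at hww'
    have h1 := (f.1 ⟨cW' w, h⟩).2
    rw [hww'] at h1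
    exact RR_diag' (not_RR_white w' h').1 h1
  · exfalso
    rw [toB_mem hm f w' h', toB_not hm f w h] at hww'
    have h1 := (f.1 ⟨cW' w', h'⟩).2
    rw [← hww'] at h1
    exact RR_diag' (not_RR_white w h).1 h1
  · rw [toB_not hm f w h, toB_not hm f w' h'] at hww'
    rw [Prod.mk.injEq] at hww'
    apply cW'_inj
    have e1 := (not_RR_white w h).2
    have e2 := (not_RR_white w' h').2
    unfold cW'
    rw [Prod.mk.injEq]
    exact ⟨hww'.1, by rw [e1, e2]; exact hww'.1⟩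

noncomputable def toSig {n m : ℕ} (hm : m < 2*n) (f : Til n m) : Wt n ≃ Bt n :=
  Equiv.ofBijective (toB hm f) ((Fintype.bijective_iff_injective_and_card _).2 ⟨toB_inj hm f, card_Wt_eq n⟩)

theorem toSig_adj {n m : ℕ} (hm : m < 2*n) (f : Til n m) (w : Wt n) :
    Adj m w.1.1.val w.1.2.val (toSig hm f w).1.1.val (toSig hm f w).1.2.val := by
  have h0 : toSig hm f w = toB hm f w := rfl
  rw [h0]
  by_cases h : cW' w ∈ RR n m
  · have h1 := toB_mem hm f w h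
    have h2 := (f.2 ⟨cW' w, h⟩).2
    rw [← h1] at h2
    unfold CAdj cW' cB' at h2
    simp only at h2
    have h3 : ¬ (w.1.1.val = w.1.2.val ∧ w.1.1.val < m) := by
      rintro ⟨h4, h5⟩
      apply RR_diag (n := n) h5
      have : cW' w = (w.1.1.val, w.1.1.val) := by unfold cW'; rw [← h4]
      rw [← this]; exact h
    unfold Adj
    omega
  · have h1 := toB_not hm f w h
    have h2 := not_RR_white w h
    unfold cB' at h1
    rw [Prod.mk.injEq] at h1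
    unfold Adj
    omega

/-- forced dominoes -/
theorem forced {n m : ℕ} (σ : Mat n m) : ∀ i : ℕ, i < m → ∀ w : Wt n, w.1.1.val = i → w.1.2.val = i →
    cB' (σ.1 w) = (i, i+1) := by
  intro i
  induction i using Nat.strong_induction_on with
  | _ i ih =>
    intro hi w h1 h2
    have h := σ.2 w
    unfold Adj at h
    have hc : ((σ.1 w).1.1.val = i ∧ (σ.1 w).1.2.val = i + 1) ∨ (i = (σ.1 w).1.1.val + 1 ∧ (σ.1 w).1.2.val = i) := by
      omega
    rcases hc with hc | hc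
    · unfold cB'; rw [hc.1, hc.2]
    · exfalso
      -- the cell (i-1, i) is already used by (i-1,i-1)
      have hb : i - 1 < 2*n := by have := w.1.1.2; omega
      set w' : Wt n := ⟨(⟨i-1, hb⟩, ⟨i-1, hb⟩), ⟨i-1, rfl⟩⟩ with hw'
      have h3 := ih (i-1) (by omega) (by omega) w' rfl rfl
      have h4 : cB' (σ.1 w') = cB' (σ.1 w) := by
        rw [h3]; unfold cB'; rw [Prod.mk.injEq]; omega
      have h5 := σ.1.injective (cB'_inj _ _ h4)
      have h6 := congrArg (fun z : Wt n => z.1.1.val) h5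
      simp only [hw'] at h6
      omega

open Classical in
noncomputable def fromF {n m : ℕ} (σ : Mat n m) (x : RR n m) : RR n m :=
  if h : Even (x.1.1 + x.1.2) then
    ⟨cB' (σ.1 ⟨(⟨x.1.1, x.2.1⟩, ⟨x.1.2, x.2.2.1⟩), h⟩), by
      by_contra hc
      have h1 := not_RR_black _ hc
      set w : Wt n := ⟨(⟨x.1.1, x.2.1⟩, ⟨x.1.2, x.2.2.1⟩), h⟩ with hw
      set y := σ.1 w with hy
      have hb : y.1.1.val < 2*n := y.1.1.2
      set w' : Wt n := ⟨(y.1.1, y.1.1), ⟨_, rfl⟩⟩ with hw'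
      have h3 := forced σ y.1.1.val h1.1 w' rfl rfl
      have h4 : cB' (σ.1 w') = cB' (σ.1 w) := by
        rw [h3, ← hy]; unfold cB'; rw [Prod.mk.injEq]; exact ⟨rfl, h1.2.symm⟩
      have h5 := σ.1.injective (cB'_inj _ _ h4)
      have h6 := congrArg cW' h5
      have h7 : cW' w = x.1 := by rw [hw]; rfl
      rw [h7] at h6
      have h8 : cW' w' = (y.1.1.val, y.1.1.val) := rfl
      rw [h8] at h6
      exact RR_diag h1.1 (by rw [h6]; exact x.2)⟩
  else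
    ⟨cW' (σ.1.symm ⟨(⟨x.1.1, x.2.1⟩, ⟨x.1.2, x.2.2.1⟩), h⟩), by
      by_contra hc
      have h1 := not_RR_white _ hc
      set y : Bt n := ⟨(⟨x.1.1, x.2.1⟩, ⟨x.1.2, x.2.2.1⟩), h⟩ with hy
      set w := σ.1.symm y with hw
      have h3 := forced σ w.1.1.val h1.1 w rfl h1.2
      have h4 : σ.1 w = y := by rw [hw]; simp
      rw [h4] at h3
      have h7 : cB' y = x.1 := by rw [hy]; rfl
      rw [h7] at h3
      exact RR_diag' h1.1 (by rw [← h3]; exact x.2)⟩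

theorem fromF_even {n m : ℕ} (σ : Mat n m) (x : RR n m) (h : Even (x.1.1 + x.1.2)) :
    (fromF σ x).1 = cB' (σ.1 ⟨(⟨x.1.1, x.2.1⟩, ⟨x.1.2, x.2.2.1⟩), h⟩) := by
  unfold fromF; rw [dif_pos h]

theorem fromF_odd {n m : ℕ} (σ : Mat n m) (x : RR n m) (h : ¬ Even (x.1.1 + x.1.2)) :
    (fromF σ x).1 = cW' (σ.1.symm ⟨(⟨x.1.1, x.2.1⟩, ⟨x.1.2, x.2.2.1⟩), h⟩) := by
  unfold fromF; rw [dif_neg h]

theorem adj_cadj {n m : ℕ} (σ : Mat n m) (w : Wt n) : CAdj (cW' w) (cB' (σ.1 w)) := by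
  have h := σ.2 w
  unfold Adj at h
  unfold CAdj cW' cB'
  simp only
  omega

theorem CAdj.symm {p q : ℕ × ℕ} (h : CAdj p q) : CAdj q p := by
  unfold CAdj at *
  omega

theorem fromF_til {n m : ℕ} (σ : Mat n m) (x : RR n m) :
    fromF σ (fromF σ x) = x ∧ CAdj x.1 (fromF σ x).1 := by
  by_cases h : Even (x.1.1 + x.1.2)
  · set w : Wt n := ⟨(⟨x.1.1, x.2.1⟩, ⟨x.1.2, x.2.2.1⟩), h⟩ with hw
    have h1 := fromF_even σ x h
    have hadj : CAdj x.1 (fromF σ x).1 := by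
      rw [h1]; exact adj_cadj σ w
    refine ⟨?_, hadj⟩
    have h2 : ¬ Even ((fromF σ x).1.1 + (fromF σ x).1.2) := (hadj.parity).1 h
    have h3 := fromF_odd σ (fromF σ x) h2
    apply Subtype.ext
    rw [h3]
    have h4 : (⟨(⟨(fromF σ x).1.1, (fromF σ x).2.1⟩, ⟨(fromF σ x).1.2, (fromF σ x).2.2.1⟩), h2⟩ : Bt n) = σ.1 w := by
      apply cB'_inj
      rw [← h1]; rfl
    rw [h4, Equiv.symm_apply_apply]
    rfl
  · set y : Bt n := ⟨(⟨x.1.1, x.2.1⟩, ⟨x.1.2, x.2.2.1⟩), h⟩ with hy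
    have h1 := fromF_odd σ x h
    have hadj : CAdj x.1 (fromF σ x).1 := by
      rw [h1]
      have := (adj_cadj σ (σ.1.symm y)).symm
      rw [Equiv.apply_symm_apply] at this
      exact this
    refine ⟨?_, hadj⟩
    have h2 : Even ((fromF σ x).1.1 + (fromF σ x).1.2) := by
      by_contra hc
      exact h ((hadj.parity).2 hc)
    have h3 := fromF_even σ (fromF σ x) h2
    apply Subtype.ext
    rw [h3]
    have h4 : (⟨(⟨(fromF σ x).1.1, (fromF σ x).2.1⟩, ⟨(fromF σ x).1.2, (fromF σ x).2.2.1⟩), h2⟩ : Wt n) = σ.1.symm y := by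
      apply cW'_inj
      rw [← h1]; rfl
    rw [h4, Equiv.apply_symm_apply]
    rfl

theorem card_til (n m : ℕ) (hm : m < 2*n) : Nat.card (Til n m) = Nat.card (Mat n m) := by
  apply Nat.card_congr
  apply Equiv.ofBijective (fun f : Til n m => (⟨toSig hm f, toSig_adj hm f⟩ : Mat n m))
  constructor
  · intro f g hfg
    have h0 : ∀ w, toB hm f w = toB hm g w := by
      intro w
      have := congrArg (fun s : Mat n m => s.1 w) hfg
      exact this
    -- agreement on white cells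
    have hwhite : ∀ x : RR n m, Even (x.1.1 + x.1.2) → f.1 x = g.1 x := by
      intro x hx
      set w : Wt n := ⟨(⟨x.1.1, x.2.1⟩, ⟨x.1.2, x.2.2.1⟩), hx⟩ with hw
      have hc : cW' w = x.1 := rfl
      have hmem : cW' w ∈ RR n m := by rw [hc]; exact x.2
      have h1 := congrArg cB' (h0 w)
      rw [toB_mem hm f w hmem, toB_mem hm g w hmem] at h1
      exact Subtype.ext h1
    apply Subtype.ext
    funext x
    by_cases hx : Even (x.1.1 + x.1.2)
    · exact hwhite x hx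
    · have h2 : Even ((f.1 x).1.1 + (f.1 x).1.2) := by
        by_contra hc
        exact hx (((f.2 x).2.parity).2 hc)
      have h3 := hwhite (f.1 x) h2
      rw [(f.2 x).1] at h3
      have h4 := congrArg g.1 h3
      rw [(g.2 _).1] at h4
      exact h4.symm
  · intro σ
    refine ⟨⟨fromF σ, fromF_til σ⟩, ?_⟩
    apply Subtype.ext
    apply Equiv.ext
    intro w
    apply cB'_inj
    change cB' (toB hm ⟨fromF σ, fromF_til σ⟩ w) = cB' (σ.1 w)
    by_cases h : cW' w ∈ RR n m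
    · rw [toB_mem hm _ w h]
      have h1 : Even ((cW' w).1 + (cW' w).2) := w.2
      rw [fromF_even σ ⟨cW' w, h⟩ h1]
      congr 1
    · rw [toB_not hm _ w h]
      have h2 := not_RR_white w h
      rw [forced σ w.1.1.val h2.1 w rfl h2.2]

theorem til_count (n m : ℕ) (hm : m < 2*n) : (Nat.card (Til n m) : ℤ) = |(MM n m).det| := by
  rw [card_til n m hm]
  exact count_matchings n m

theorem intrusion (n m : ℕ) (hn : 1 ≤ n) (hm : m ≤ n) :
    ∃ k : ℕ, Odd k ∧ Nat.card (Til n m) = 2^(n-m) * k^2 :=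
  arith_main n m hm _ (til_count n m (by omega))

theorem intrusion_all (n m : ℕ) (hm : m < 2*n) :
    ∃ k : ℕ, Nat.card (Til n m) = k^2 ∨ Nat.card (Til n m) = 2 * k^2 :=
  arith_all n m hm.le _ (til_count n m hm)

end Pool.Agent.Dom84
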